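import Pool.Agent.H783R2.Arc.Sup

/-! # A four-corner Cantor set -/

set_option autoImplicit false
open Set Filter Topology Metric MeasureTheory Real

namespace Pool.Agent.H783R2

/-- the contraction ratio -/
noncomputable def lam : ℝ := 99 / 200

lemma lam_pos : 0 < lam := by norm_num [lam]
lemma lam_lt_one : lam < 1 := by norm_num [lam]

/-- value of a digit -/
def bv (b : Bool) : ℝ := if b then 1 else 0

@[simp] lemma bv_true : bv true = 1 := rfl
@[simp] lemma bv_false : bv false = 0 := rfl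

lemma bv_nonneg (b : Bool) : 0 ≤ bv b := by cases b <;> simp
lemma bv_le_one (b : Bool) : bv b ≤ 1 := by cases b <;> simp

/-- the 1-d translation part of a word -/
noncomputable def cl : List Bool → ℝ
  | [] => 0
  | b :: w => (1 - lam) * bv b + lam * cl w

/-- the 1-d similarity of a word -/
noncomputable def fw (w : List Bool) (x : ℝ) : ℝ := lam ^ w.length * x + cl w

@[simp] lemma fw_nil (x : ℝ) : fw [] x = x := by simp [fw, cl]

lemma fw_cons (b : Bool) (w : List Bool) (x : ℝ) :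
    fw (b :: w) x = lam * fw w x + (1 - lam) * bv b := by
  simp only [fw, cl, List.length_cons, pow_succ]; ring

lemma fw_append (w v : List Bool) (x : ℝ) : fw (w ++ v) x = fw w (fw v x) := by
  induction w with
  | nil => simp
  | cons b w ih => rw [List.cons_append, fw_cons, fw_cons, ih]

lemma fw_mem {w : List Bool} {x : ℝ} (hx : x ∈ Icc (0:ℝ) 1) : fw w x ∈ Icc (0:ℝ) 1 := by
  induction w with
  | nil => simpa using hx
  | cons b w ih =>
    rw [fw_cons]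
    have h1 := bv_nonneg b
    have h2 := bv_le_one b
    have h3 := lam_pos
    have h4 := lam_lt_one
    obtain ⟨h5, h6⟩ := ih
    constructor
    · have := mul_nonneg h3.le h5
      have := mul_nonneg (sub_nonneg.2 h4.le) h1
      linarith
    · nlinarith

/-- the 1-d Cantor set -/
def C1 : Set ℝ := {x | ∀ n : ℕ, ∃ w : List Bool, w.length = n ∧ ∃ y ∈ Icc (0:ℝ) 1, x = fw w y}

lemma C1_subset : C1 ⊆ Icc (0:ℝ) 1 := by
  intro x hx
  obtain ⟨w, hw, y, hy, rfl⟩ := hx 0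
  exact fw_mem hy

lemma zero_mem_C1 : (0:ℝ) ∈ C1 := by
  intro n
  refine ⟨List.replicate n false, by simp, 0, by simp, ?_⟩
  induction n with
  | zero => simp
  | succ n ih => rw [List.replicate_succ, fw_cons, ← ih]; simp

lemma fw_continuous (w : List Bool) : Continuous (fw w) := by unfold fw; fun_prop

lemma isClosed_C1 : IsClosed C1 := by
  have h : C1 = ⋂ n : ℕ, ⋃ w ∈ {w : List Bool | w.length = n}, fw w '' Icc (0:ℝ) 1 := by
    ext x
    simp only [C1, mem_ofPred_eq, mem_iInter, mem_iUnion, mem_image, exists_prop]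
    constructor
    · intro h n
      obtain ⟨w, hw, y, hy, rfl⟩ := h n
      exact ⟨w, hw, y, hy, rfl⟩
    · intro h n
      obtain ⟨w, hw, y, hy, hxy⟩ := h n
      exact ⟨w, hw, y, hy, hxy.symm⟩
  rw [h]
  refine isClosed_iInter fun n => ?_
  refine (List.finite_length_eq Bool n).isClosed_biUnion fun w _ => ?_
  exact (isCompact_Icc.image (fw_continuous w)).isClosed

lemma mem_C1_cons {b : Bool} {x : ℝ} (hx : x ∈ C1) : lam * x + (1 - lam) * bv b ∈ C1 := by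
  intro n
  cases n with
  | zero =>
    refine ⟨[], rfl, _, ?_, (fw_nil _).symm⟩
    have := fw_mem (w := [b]) (C1_subset hx)
    rwa [fw_cons, fw_nil] at this
  | succ n =>
    obtain ⟨w, hw, y, hy, hxy⟩ := hx n
    exact ⟨b :: w, by simp [hw], y, hy, by rw [fw_cons, ← hxy]⟩

lemma C1_decomp {x : ℝ} (hx : x ∈ C1) : ∃ b : Bool, ∃ y ∈ C1, x = lam * y + (1 - lam) * bv b := by
  obtain ⟨w, hw, y, hy, hxy⟩ := hx 1
  obtain ⟨b, rfl⟩ := List.length_eq_one_iff.1 hw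
  rw [fw_cons, fw_nil] at hxy
  refine ⟨b, y, ?_, hxy⟩
  intro n
  obtain ⟨w', hw', y', hy', hxy'⟩ := hx (n + 1)
  obtain ⟨b', w'', rfl⟩ := List.exists_cons_of_length_eq_add_one hw'
  rw [fw_cons] at hxy'
  have h1 : fw w'' y' ∈ Icc (0:ℝ) 1 := fw_mem hy'
  have hbb : b = b' := by
    by_contra hne
    rw [hxy] at hxy'
    have h2 := h1.1
    have h3 := h1.2
    have h4 := hy.1
    have h5 := hy.2
    simp only [lam] at hxy'
    cases b <;> cases b' <;> simp at hne hxy' <;> linarith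
  subst hbb
  refine ⟨w'', by simpa using hw', y', hy', ?_⟩
  rw [hxy] at hxy'
  have := lam_pos
  have h6 : lam * y = lam * fw w'' y' := by linarith
  exact mul_left_cancel₀ this.ne' h6

/-- an open interval around `[0, 1]` -/
lemma C1_of_mem {b : Bool} {x : ℝ} (hx : x ∈ Ioo (-(1:ℝ)/100) (1 + 1/100))
    (h : lam * x + (1 - lam) * bv b ∈ C1) : x ∈ C1 := by
  obtain ⟨b', y, hy, hxy⟩ := C1_decomp h
  have h1 := C1_subset hy
  have hbb : b = b' := by
    by_contra hne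
    have h2 := h1.1
    have h3 := h1.2
    have h4 := hx.1
    have h5 := hx.2
    simp only [lam] at hxy
    cases b <;> cases b' <;> simp at hne hxy <;> linarith
  subst hbb
  have := lam_pos
  have h6 : lam * x = lam * y := by linarith
  rw [mul_left_cancel₀ this.ne' h6]
  exact hy

/-! ### two dimensions -/

/-- digits -/
abbrev Dg := Bool × Bool

/-- value of a digit -/
def dv (d : Dg) : ℂ := ⟨bv d.1, bv d.2⟩

/-- translation part -/
noncomputable def cw : List Dg → ℂ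
  | [] => 0
  | d :: w => ((1 - lam : ℝ) : ℂ) * dv d + (lam : ℂ) * cw w

/-- the similarity of a word -/
noncomputable def Fm (w : List Dg) (z : ℂ) : ℂ := ((lam ^ w.length : ℝ) : ℂ) * z + cw w

@[simp] lemma Fm_nil (z : ℂ) : Fm [] z = z := by simp [Fm, cw]

lemma Fm_cons (d : Dg) (w : List Dg) (z : ℂ) :
    Fm (d :: w) z = (lam : ℂ) * Fm w z + ((1 - lam : ℝ) : ℂ) * dv d := by
  simp only [Fm, cw, List.length_cons, pow_succ]; push_cast; ring

lemma Fm_append (w v : List Dg) (z : ℂ) : Fm (w ++ v) z = Fm w (Fm v z) := by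
  induction w with
  | nil => simp
  | cons b w ih => rw [List.cons_append, Fm_cons, Fm_cons, ih]

lemma Fm_cons_re (d : Dg) (w : List Dg) (z : ℂ) :
    (Fm (d :: w) z).re = lam * (Fm w z).re + (1 - lam) * bv d.1 := by
  rw [Fm_cons, Complex.add_re, Complex.re_ofReal_mul, Complex.re_ofReal_mul]; rfl

lemma Fm_cons_im (d : Dg) (w : List Dg) (z : ℂ) :
    (Fm (d :: w) z).im = lam * (Fm w z).im + (1 - lam) * bv d.2 := by
  rw [Fm_cons, Complex.add_im, Complex.im_ofReal_mul, Complex.im_ofReal_mul]; rfl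

lemma Fm_continuous (w : List Dg) : Continuous (Fm w) := by unfold Fm; fun_prop

lemma lamn_pos (w : List Dg) : 0 < lam ^ w.length := pow_pos lam_pos _

lemma Fm_dist (w : List Dg) (z z' : ℂ) : dist (Fm w z) (Fm w z') = lam ^ w.length * dist z z' := by
  rw [dist_eq_norm, dist_eq_norm]
  have : Fm w z - Fm w z' = ((lam ^ w.length : ℝ) : ℂ) * (z - z') := by simp only [Fm]; ring
  rw [this, norm_mul, Complex.norm_real, Real.norm_eq_abs, abs_of_pos (lamn_pos w)]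

/-- the Cantor set -/
def K : Set ℂ := {z | z.re ∈ C1 ∧ z.im ∈ C1}

/-- the unit square -/
def Q0 : Set ℂ := {z | z.re ∈ Icc (0:ℝ) 1 ∧ z.im ∈ Icc (0:ℝ) 1}

/-- the open square -/
def B0 : Set ℂ := {z | z.re ∈ Ioo (-(1:ℝ)/100) (1 + 1/100) ∧ z.im ∈ Ioo (-(1:ℝ)/100) (1 + 1/100)}

/-- the domain -/
def Om : Set ℂ := B0 \ K

lemma K_subset_Q0 : K ⊆ Q0 := fun _ hz => ⟨C1_subset hz.1, C1_subset hz.2⟩

lemma Q0_subset_B0 : Q0 ⊆ B0 := by
  rintro z ⟨⟨h1, h2⟩, ⟨h3, h4⟩⟩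
  refine ⟨⟨?_, ?_⟩, ⟨?_, ?_⟩⟩ <;> linarith

lemma zero_mem_K : (0:ℂ) ∈ K := ⟨zero_mem_C1, zero_mem_C1⟩

lemma isClosed_K : IsClosed K :=
  (isClosed_C1.preimage Complex.continuous_re).inter (isClosed_C1.preimage Complex.continuous_im)

lemma isOpen_B0 : IsOpen B0 :=
  (isOpen_Ioo.preimage Complex.continuous_re).inter (isOpen_Ioo.preimage Complex.continuous_im)

lemma isOpen_Om : IsOpen Om := isOpen_B0.sdiff isClosed_K

lemma norm_le_of_B0 {z : ℂ} (hz : z ∈ B0) : ‖z‖ ≤ 3 := by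
  obtain ⟨⟨h1, h2⟩, ⟨h3, h4⟩⟩ := hz
  refine (Complex.norm_le_abs_re_add_abs_im z).trans ?_
  have : |z.re| ≤ 3/2 := abs_le.2 ⟨by linarith, by linarith⟩
  have : |z.im| ≤ 3/2 := abs_le.2 ⟨by linarith, by linarith⟩
  linarith

lemma isBounded_B0 : Bornology.IsBounded B0 :=
  isBounded_closedBall.subset (fun z hz => by
    rw [mem_closedBall_zero_iff]; exact norm_le_of_B0 hz : B0 ⊆ closedBall 0 3)

lemma isCompact_K : IsCompact K :=
  Metric.isCompact_of_isClosed_isBounded isClosed_K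
    (isBounded_B0.subset (K_subset_Q0.trans Q0_subset_B0))

lemma Fm_mem_K {w : List Dg} {z : ℂ} (hz : z ∈ K) : Fm w z ∈ K := by
  induction w with
  | nil => simpa using hz
  | cons d w ih =>
    refine ⟨?_, ?_⟩
    · rw [Fm_cons_re]; exact mem_C1_cons ih.1
    · rw [Fm_cons_im]; exact mem_C1_cons ih.2

lemma Fm_mem_Q0 {w : List Dg} {z : ℂ} (hz : z ∈ Q0) : Fm w z ∈ Q0 := by
  induction w with
  | nil => simpa using hz
  | cons d w ih =>
    refine ⟨?_, ?_⟩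
    · rw [Fm_cons_re]
      have := fw_mem (w := [d.1]) ih.1
      rwa [fw_cons, fw_nil] at this
    · rw [Fm_cons_im]
      have := fw_mem (w := [d.2]) ih.2
      rwa [fw_cons, fw_nil] at this

lemma step_B0 {b : Bool} {x : ℝ} (hx : x ∈ Ioo (-(1:ℝ)/100) (1 + 1/100)) :
    lam * x + (1 - lam) * bv b ∈ Ioo (-(1:ℝ)/100 * lam) (1 + 1/100 * lam) := by
  obtain ⟨h1, h2⟩ := hx
  simp only [lam]
  cases b <;> simp <;> constructor <;> linarith

lemma Fm_mem_B0 {w : List Dg} {z : ℂ} (hz : z ∈ B0) : Fm w z ∈ B0 := by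
  induction w with
  | nil => simpa using hz
  | cons d w ih =>
    refine ⟨?_, ?_⟩
    · rw [Fm_cons_re]
      obtain ⟨h1, h2⟩ := step_B0 (b := d.1) ih.1
      simp only [lam] at h1 h2 ⊢
      constructor <;> linarith
    · rw [Fm_cons_im]
      obtain ⟨h1, h2⟩ := step_B0 (b := d.2) ih.2
      simp only [lam] at h1 h2 ⊢
      constructor <;> linarith

lemma mem_K_of_Fm {w : List Dg} {z : ℂ} (hz : z ∈ B0) (h : Fm w z ∈ K) : z ∈ K := by
  induction w with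
  | nil => simpa using h
  | cons d w ih =>
    refine ih ?_
    have hB := Fm_mem_B0 (w := w) hz
    rw [K, mem_ofPred_eq, Fm_cons_re, Fm_cons_im] at h
    exact ⟨C1_of_mem hB.1 h.1, C1_of_mem hB.2 h.2⟩

lemma Fm_mem_Om {w : List Dg} {z : ℂ} (hz : z ∈ Om) : Fm w z ∈ Om :=
  ⟨Fm_mem_B0 hz.1, fun h => hz.2 (mem_K_of_Fm hz.1 h)⟩

lemma K_decomp1 {z : ℂ} (hz : z ∈ K) : ∃ d : Dg, ∃ y ∈ K, z = Fm [d] y := by
  obtain ⟨b, x, hx, h1⟩ := C1_decomp hz.1
  obtain ⟨b', x', hx', h2⟩ := C1_decomp hz.2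
  refine ⟨(b, b'), ⟨x, x'⟩, ⟨hx, hx'⟩, ?_⟩
  apply Complex.ext
  · rw [Fm_cons_re, Fm_nil, h1]
  · rw [Fm_cons_im, Fm_nil, h2]

lemma K_decomp {z : ℂ} (hz : z ∈ K) (n : ℕ) : ∃ w : List Dg, w.length = n ∧ ∃ y ∈ K, z = Fm w y := by
  induction n generalizing z with
  | zero => exact ⟨[], rfl, z, hz, (Fm_nil z).symm⟩
  | succ n ih =>
    obtain ⟨d, y, hy, rfl⟩ := K_decomp1 hz
    obtain ⟨w, hw, y', hy', rfl⟩ := ih hy
    exact ⟨d :: w, by simp [hw], y', hy', by rw [← Fm_append]; rfl⟩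

lemma isPreconnected_Om : IsPreconnected Om := by
  have hb : ((-(1:ℝ)/200 : ℝ)) ∉ C1 := fun h => by
    have := (C1_subset h).1
    norm_num at this
  have hbI : ((-(1:ℝ)/200 : ℝ)) ∈ Ioo (-(1:ℝ)/100) (1 + 1/100) := by constructor <;> norm_num
  -- vertical and horizontal segments
  have hV : ∀ x : ℝ, IsPreconnected {z : ℂ | z.re = x ∧ z.im ∈ Ioo (-(1:ℝ)/100) (1 + 1/100)} := by
    intro x
    apply Convex.isPreconnected
    have e : {z : ℂ | z.re = x ∧ z.im ∈ Ioo (-(1:ℝ)/100) (1 + 1/100)}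
        = (Complex.reLm ⁻¹' {x}) ∩ (Complex.imLm ⁻¹' Ioo (-(1:ℝ)/100) (1 + 1/100)) := by
      ext z; simp
    rw [e]
    exact ((convex_singleton x).linear_preimage _).inter ((convex_Ioo _ _).linear_preimage _)
  have hH : ∀ y : ℝ, IsPreconnected {z : ℂ | z.im = y ∧ z.re ∈ Ioo (-(1:ℝ)/100) (1 + 1/100)} := by
    intro y
    apply Convex.isPreconnected
    have e : {z : ℂ | z.im = y ∧ z.re ∈ Ioo (-(1:ℝ)/100) (1 + 1/100)}
        = (Complex.imLm ⁻¹' {y}) ∩ (Complex.reLm ⁻¹' Ioo (-(1:ℝ)/100) (1 + 1/100)) := by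
      ext z; simp
    rw [e]
    exact ((convex_singleton y).linear_preimage _).inter ((convex_Ioo _ _).linear_preimage _)
  have hVs : ∀ x : ℝ, x ∈ Ioo (-(1:ℝ)/100) (1 + 1/100) → x ∉ C1 →
      {z : ℂ | z.re = x ∧ z.im ∈ Ioo (-(1:ℝ)/100) (1 + 1/100)} ⊆ Om := by
    rintro x hx hxC z ⟨h1, h2⟩
    exact ⟨⟨h1 ▸ hx, h2⟩, fun h => hxC (h1 ▸ h.1)⟩
  have hHs : ∀ y : ℝ, y ∈ Ioo (-(1:ℝ)/100) (1 + 1/100) → y ∉ C1 →
      {z : ℂ | z.im = y ∧ z.re ∈ Ioo (-(1:ℝ)/100) (1 + 1/100)} ⊆ Om := by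
    rintro y hy hyC z ⟨h1, h2⟩
    exact ⟨⟨h2, h1 ▸ hy⟩, fun h => hyC (h1 ▸ h.2)⟩
  refine isPreconnected_of_forall (⟨-(1:ℝ)/200, -(1:ℝ)/200⟩ : ℂ) ?_
  intro z hz
  by_cases hre : z.re ∈ C1
  · have him : z.im ∉ C1 := fun h => hz.2 ⟨hre, h⟩
    refine ⟨{w : ℂ | w.im = z.im ∧ w.re ∈ Ioo (-(1:ℝ)/100) (1 + 1/100)} ∪
      {w : ℂ | w.re = -(1:ℝ)/200 ∧ w.im ∈ Ioo (-(1:ℝ)/100) (1 + 1/100)},
      union_subset (hHs _ hz.1.2 him) (hVs _ hbI hb), Or.inr ⟨rfl, hbI⟩, Or.inl ⟨rfl, hz.1.1⟩, ?_⟩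
    exact IsPreconnected.union (⟨-(1:ℝ)/200, z.im⟩ : ℂ) ⟨rfl, hbI⟩ ⟨rfl, hz.1.2⟩ (hH _) (hV _)
  · refine ⟨{w : ℂ | w.re = z.re ∧ w.im ∈ Ioo (-(1:ℝ)/100) (1 + 1/100)} ∪
      {w : ℂ | w.im = -(1:ℝ)/200 ∧ w.re ∈ Ioo (-(1:ℝ)/100) (1 + 1/100)},
      union_subset (hVs _ hz.1.1 hre) (hHs _ hbI hb), Or.inr ⟨rfl, hbI⟩, Or.inl ⟨rfl, hz.1.2⟩, ?_⟩
    exact IsPreconnected.union (⟨z.re, -(1:ℝ)/200⟩ : ℂ) ⟨rfl, hbI⟩ ⟨rfl, hz.1.1⟩ (hV _) (hH _)

end Pool.Agent.H783R2
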