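import Pool.Agent.H783R2.Arc.Game

/-! # Bad points have no arcs of the required size; conclusion -/

set_option autoImplicit false
open Set Filter Topology Metric MeasureTheory Real

namespace Pool.Agent.H783R2

lemma Fm_circle (w : List Dg) (z : ℂ) (s t : ℝ) :
    Fm w (circleMap z s t) = circleMap (Fm w z) (lam ^ w.length * s) t := by
  simp only [Fm, circleMap]
  push_cast
  ring

lemma arc_short {ζ' : ℂ} (hc : Corner ζ') (w : List Dg) {s : ℝ} (hs1 : 1/10 ≤ s) (hs2 : s ≤ 3/5)
    {a b : ℝ} (h : ∀ t ∈ Ioo a b, circleMap (Fm w ζ') (lam ^ w.length * s) t ∈ Om) :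
    b - a ≤ π / 2 + 1 / 2 := by
  by_contra hcon
  push Not at hcon
  have hpi : 0 < π / 2 := by positivity
  set i : ℤ := ⌊(a + 1/4 - π / 4) / (π / 2)⌋ + 1 with hi
  have h1 : (a + 1/4 - π / 4) / (π / 2) < i := by
    rw [hi]; push_cast; exact Int.lt_floor_add_one _
  have h2 : (i : ℝ) ≤ (a + 1/4 - π / 4) / (π / 2) + 1 := by
    rw [hi]; push_cast
    linarith [Int.floor_le ((a + 1/4 - π / 4) / (π / 2))]
  rw [div_lt_iff₀ hpi] at h1
  have h3 : (i : ℝ) * (π / 2) ≤ a + 1/4 - π / 4 + π / 2 := by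
    have := mul_le_mul_of_nonneg_right h2 hpi.le
    rw [add_mul, div_mul_cancel₀ _ hpi.ne', one_mul] at this
    exact this
  obtain ⟨t, ht, hK⟩ := blocked hc hs1 hs2 i
  rw [abs_le] at ht
  have h4 := h t ⟨by linarith, by linarith⟩
  rw [← Fm_circle] at h4
  exact h4.2 (Fm_mem_K hK)

lemma bad_no_arcs {ζ : ℂ} (hζ : Bad ζ) {a b : ℝ → ℝ} (hm : Measurable (fun r => b r - a r))
    (hab : ∀ r : ℝ, 0 < r → a r ≤ b r ∧ b r - a r ≤ 2 * π ∧
      ∀ t ∈ Ioo (a r) (b r), ζ + (r:ℂ) * Complex.exp ((t:ℂ) * Complex.I) ∈ Om) :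
    ¬ Tendsto (fun R : ℝ => (π * R ^ 2)⁻¹ * ∫ r in (0:ℝ)..R, (b r - a r) * r)
      (𝓝[>] 0) (𝓝 (1/2)) := by
  intro hT
  have hpi := Real.pi_pos
  have hpi3 := Real.pi_gt_three
  have h1 : ∀ᶠ R : ℝ in 𝓝[>] 0, 0.47 < (π * R ^ 2)⁻¹ * ∫ r in (0:ℝ)..R, (b r - a r) * r :=
    hT.eventually (lt_mem_nhds (by norm_num))
  rw [eventually_nhdsWithin_iff, Metric.eventually_nhds_iff] at h1
  obtain ⟨ε, hε, h2⟩ := h1
  obtain ⟨n, hn⟩ : ∃ n : ℕ, lam ^ n < ε := by
    exact ((tendsto_pow_atTop_nhds_zero_of_lt_one lam_pos.le lam_lt_one).eventually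
      (gt_mem_nhds hε)).exists
  obtain ⟨w, hw, ζ', hc, rfl⟩ := hζ n
  have hl := lamn_pos w
  have hlw : lam ^ w.length ≤ lam ^ n := pow_le_pow_of_le_one lam_pos.le lam_lt_one.le hw
  set l := lam ^ w.length with hldef
  set R := l * (3/5) with hR
  set R6 := l * (1/10) with hR6
  have hR0 : 0 < R := by positivity
  have hR60 : 0 < R6 := by positivity
  have hRR : R6 ≤ R := by rw [hR, hR6]; nlinarith
  have h3 := h2 (y := R) (by
    rw [dist_zero_right, Real.norm_eq_abs, abs_of_pos hR0]
    rw [hR]; nlinarith) hR0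
  -- integrability
  have hmf : Measurable (fun r => (b r - a r) * r) := hm.mul measurable_id
  have hint : ∀ x y : ℝ, 0 ≤ x → x ≤ y →
      IntervalIntegrable (fun r => (b r - a r) * r) volume x y := by
    intro x y hx hxy
    rw [intervalIntegrable_iff_integrableOn_Ioc_of_le hxy]
    refine Measure.integrableOn_of_bounded (M := 2 * π * y) measure_Ioc_lt_top.ne
      hmf.aestronglyMeasurable ?_
    refine (ae_restrict_iff' measurableSet_Ioc).2 (Eventually.of_forall fun r hr => ?_)
    have hr0 : 0 < r := lt_of_le_of_lt hx hr.1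
    obtain ⟨h4, h5, -⟩ := hab r hr0
    have h6 : 0 ≤ b r - a r := by linarith
    rw [Real.norm_eq_abs, abs_of_nonneg (by positivity)]
    exact mul_le_mul h5 hr.2 hr0.le (by positivity)
  have hI1 : ∫ r in (0:ℝ)..R6, (b r - a r) * r ≤ π * R6 ^ 2 := by
    have h4 : ∫ r in (0:ℝ)..R6, (b r - a r) * r ≤ ∫ r in (0:ℝ)..R6, 2 * π * r := by
      refine intervalIntegral.integral_mono_on hR60.le (hint 0 R6 le_rfl hR60.le)
        ((by fun_prop : Continuous fun r : ℝ => 2 * π * r).intervalIntegrable _ _) ?_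
      intro r hr
      rcases eq_or_lt_of_le hr.1 with h | h
      · rw [← h]; simp
      · obtain ⟨h4, h5, -⟩ := hab r h
        exact mul_le_mul_of_nonneg_right h5 h.le
    rw [intervalIntegral.integral_const_mul, integral_id] at h4
    linarith
  have hI2 : ∫ r in R6..R, (b r - a r) * r ≤ (π / 2 + 1 / 2) * ((R ^ 2 - R6 ^ 2) / 2) := by
    have h4 : ∫ r in R6..R, (b r - a r) * r ≤ ∫ r in R6..R, (π / 2 + 1 / 2) * r := by
      refine intervalIntegral.integral_mono_on hRR (hint R6 R hR60.le hRR)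
        ((by fun_prop : Continuous fun r : ℝ => (π / 2 + 1 / 2) * r).intervalIntegrable _ _) ?_
      intro r hr
      have hr0 : 0 < r := lt_of_lt_of_le hR60 hr.1
      obtain ⟨h4, h5, h6⟩ := hab r hr0
      refine mul_le_mul_of_nonneg_right ?_ hr0.le
      have e : l * (r / l) = r := by field_simp
      refine arc_short hc w (s := r / l) ?_ ?_ ?_
      · rw [le_div_iff₀ hl]; linarith [hr.1]
      · rw [div_le_iff₀ hl]; linarith [hr.2]
      · intro t ht
        rw [← hldef, e]
        exact h6 t ht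
    rw [intervalIntegral.integral_const_mul, integral_id] at h4
    exact h4
  have hsum : ∫ r in (0:ℝ)..R, (b r - a r) * r ≤ π * R6 ^ 2 +
      (π / 2 + 1 / 2) * ((R ^ 2 - R6 ^ 2) / 2) := by
    rw [← intervalIntegral.integral_add_adjacent_intervals (hint 0 R6 le_rfl hR60.le)
      (hint R6 R hR60.le hRR)]
    linarith
  have hfin : (π * R ^ 2)⁻¹ * ∫ r in (0:ℝ)..R, (b r - a r) * r ≤ 0.47 := by
    rw [inv_mul_le_iff₀ (by positivity)]
    refine hsum.trans ?_
    rw [hR, hR6]
    have hl2 : 0 < l ^ 2 := by positivity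
    have h5 : (1:ℝ) ≤ π / 3 := by linarith
    nlinarith [mul_pos hl2 hpi, mul_le_mul_of_nonneg_left h5 hl2.le]
  linarith

/-- superharmonic functions in the sense of the frozen statement, truncated at `1` -/
lemma SH_of_frozen {D : Set ℂ} {u : ℂ → ENNReal} (hl : LowerSemicontinuousOn u D)
    (hm : ∀ a : ℂ, ∀ r : ℝ, 0 < r → closedBall a r ⊆ D →
      ∫⁻ t in Ioc (0:ℝ) (2 * π), u (a + (r:ℂ) * Complex.exp ((t:ℂ) * Complex.I))
        ≤ ENNReal.ofReal (2 * π) * u a) : SH D (fun z => (min (u z) 1).toReal) where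
  nonneg := fun z _ => ENNReal.toReal_nonneg
  le_one := fun z _ => by
    have := ENNReal.toReal_mono (b := 1) ENNReal.one_ne_top (min_le_right (u z) 1)
    simpa using this
  lsc := by
    intro z hz y hy
    change y < (min (u z) 1).toReal at hy
    rcases lt_or_ge y 0 with h0 | h0
    · exact Eventually.of_forall fun w => lt_of_lt_of_le h0 ENNReal.toReal_nonneg
    · have h1 : ENNReal.ofReal y < min (u z) 1 := (ENNReal.ofReal_lt_iff_lt_toReal h0
        (ne_top_of_le_ne_top ENNReal.one_ne_top (min_le_right _ _))).2 hy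
      rw [lt_min_iff] at h1
      filter_upwards [hl z hz _ h1.1] with w hw
      exact (ENNReal.ofReal_lt_iff_lt_toReal h0
        (ne_top_of_le_ne_top ENNReal.one_ne_top (min_le_right _ _))).1 (lt_min hw h1.2)
  mean := by
    intro c r hr hc
    have h2pi : 0 < 2 * π := by positivity
    have hsD := sphere_subset_closedBall.trans hc
    have hlsc : LowerSemicontinuous (fun t : ℝ => u (circleMap c r t)) := by
      intro t y hy
      have h1 := hl (circleMap c r t) (hsD (circleMap_mem_sphere c hr.le t)) y hy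
      have h2 : Tendsto (circleMap c r) (𝓝 t) (𝓝[D] (circleMap c r t)) :=
        tendsto_nhdsWithin_iff.2 ⟨(continuous_circleMap c r).continuousAt,
          Eventually.of_forall fun s => hsD (circleMap_mem_sphere c hr.le s)⟩
      exact h2.eventually h1
    have hmeas : Measurable (fun t : ℝ => min (u (circleMap c r t)) 1) :=
      hlsc.measurable.min measurable_const
    have e1 : circleAverage (fun z => (min (u z) 1).toReal) c r
        = (2 * π)⁻¹ * (∫⁻ t in Ioc (0:ℝ) (2 * π), min (u (circleMap c r t)) 1).toReal := by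
      rw [circleAverage_def, smul_eq_mul, intervalIntegral.integral_of_le h2pi.le,
        integral_toReal hmeas.aemeasurable (Eventually.of_forall fun t =>
          lt_of_le_of_lt (min_le_right _ _) ENNReal.one_lt_top)]
    rw [e1, inv_mul_le_iff₀ h2pi]
    rcases le_total 1 (u c) with h | h
    · rw [min_eq_right h]
      have h1 : ∫⁻ t in Ioc (0:ℝ) (2 * π), min (u (circleMap c r t)) 1
          ≤ ∫⁻ _t in Ioc (0:ℝ) (2 * π), 1 := lintegral_mono fun t => min_le_right _ _
      rw [setLIntegral_one, Real.volume_Ioc, sub_zero] at h1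
      have h2 := ENNReal.toReal_mono ENNReal.ofReal_ne_top h1
      rw [ENNReal.toReal_ofReal h2pi.le] at h2
      simpa using h2
    · rw [min_eq_left h]
      have h1 : ∫⁻ t in Ioc (0:ℝ) (2 * π), min (u (circleMap c r t)) 1
          ≤ ENNReal.ofReal (2 * π) * u c :=
        (lintegral_mono fun t => min_le_left _ _).trans (hm c r hr hc)
      have hne : u c ≠ ⊤ := ne_top_of_le_ne_top ENNReal.one_ne_top h
      have h2 := ENNReal.toReal_mono (ENNReal.mul_ne_top ENNReal.ofReal_ne_top hne) h1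
      rwa [ENNReal.toReal_mul, ENNReal.toReal_ofReal h2pi.le] at h2

/-- the nonconstant positive harmonic function `2 + Re z` on `Om` -/
lemma nonconst : ∃ u : ℂ → ENNReal,
      (LowerSemicontinuousOn u Om ∧ ∀ a : ℂ, ∀ r : ℝ, 0 < r → closedBall a r ⊆ Om →
        ∫⁻ t in Ioc (0:ℝ) (2 * π), u (a + (r:ℂ) * Complex.exp ((t:ℂ) * Complex.I))
          ≤ ENNReal.ofReal (2 * π) * u a) ∧
      ∃ z ∈ Om, ∃ w ∈ Om, u z < u w ∧ u w < ⊤ := by
  refine ⟨fun z => ENNReal.ofReal (2 + z.re), ⟨?_, ?_⟩, ?_⟩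
  · have : Continuous (fun z : ℂ => ENNReal.ofReal (2 + z.re)) :=
      ENNReal.continuous_ofReal.comp (by fun_prop)
    exact this.lowerSemicontinuous.lowerSemicontinuousOn _
  · intro a r hr hc
    have h2pi : 0 < 2 * π := by positivity
    have hpos : ∀ z ∈ closedBall a r, 0 ≤ 2 + z.re := by
      intro z hz
      have := (hc hz).1.1.1
      linarith
    have e1 : ∀ t : ℝ, (a + (r:ℂ) * Complex.exp ((t:ℂ) * Complex.I)).re = a.re + r * Real.cos t :=
      fun t => circle_re a r t
    have hmem : ∀ t : ℝ, a + (r:ℂ) * Complex.exp ((t:ℂ) * Complex.I) ∈ closedBall a r :=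
      fun t => circleMap_mem_closedBall a hr.le t
    have hcont : Continuous fun t : ℝ => 2 + (a.re + r * Real.cos t) := by fun_prop
    have e2 : ∫⁻ t in Ioc (0:ℝ) (2 * π), ENNReal.ofReal
        (2 + (a + (r:ℂ) * Complex.exp ((t:ℂ) * Complex.I)).re)
        = ENNReal.ofReal (∫ t in Ioc (0:ℝ) (2 * π), (2 + (a.re + r * Real.cos t))) := by
      rw [ofReal_integral_eq_lintegral_ofReal]
      · simp only [e1]
      · exact (hcont.integrableOn_Icc).mono_set Ioc_subset_Icc_self
      · refine Eventually.of_forall fun t => ?_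
        have := hpos _ (hmem t)
        rw [e1] at this
        exact this
    rw [e2, ← ENNReal.ofReal_mul h2pi.le]
    refine ENNReal.ofReal_le_ofReal (le_of_eq ?_)
    rw [← intervalIntegral.integral_of_le h2pi.le, intervalIntegral.integral_add,
      intervalIntegral.integral_add, intervalIntegral.integral_const_mul, integral_cos]
    · simp
      ring
    · exact continuous_const.intervalIntegrable _ _
    · exact (by fun_prop : Continuous fun t : ℝ => r * Real.cos t).intervalIntegrable _ _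
    · exact continuous_const.intervalIntegrable _ _
    · exact (by fun_prop : Continuous fun t : ℝ => a.re + r * Real.cos t).intervalIntegrable _ _
  · have h1 : (⟨-1/200, 0⟩ : ℂ) ∈ Om := by
      refine ⟨⟨⟨?_, ?_⟩, ⟨?_, ?_⟩⟩, fun h => ?_⟩
      · norm_num
      · norm_num
      · norm_num
      · norm_num
      · have := (C1_subset h.1).1
        norm_num at this
    have h2 : (⟨1 + 1/200, 0⟩ : ℂ) ∈ Om := by
      refine ⟨⟨⟨?_, ?_⟩, ⟨?_, ?_⟩⟩, fun h => ?_⟩
      · norm_num
      · norm_num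
      · norm_num
      · norm_num
      · have := (C1_subset h.1).2
        norm_num at this
    refine ⟨_, h1, _, h2, ?_, ENNReal.ofReal_lt_top⟩
    exact (ENNReal.ofReal_lt_ofReal_iff (by norm_num)).2 (by norm_num)

end Pool.Agent.H783R2
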