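import Pool.Agent.H783R2.Arc.Pot

/-! # Zero-one law and the selection of bad points -/

set_option autoImplicit false
open Set Filter Topology Metric MeasureTheory Real

namespace Pool.Agent.H783R2

lemma K_ne : K.Nonempty := ⟨0, zero_mem_K⟩

/-- an annular region around `K` -/
def AA : Set ℂ := {y | lam / 400 ≤ infDist y K ∧ infDist y K ≤ 1 / 400}

/-- a closed square inside `B0` -/
def Xs : Set ℂ := {z | z.re ∈ Icc (-(1:ℝ)/100 * lam) (1 + 1/100 * lam) ∧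
  z.im ∈ Icc (-(1:ℝ)/100 * lam) (1 + 1/100 * lam)}

lemma isClosed_AA : IsClosed AA :=
  (isClosed_le continuous_const (continuous_infDist_pt K)).inter
    (isClosed_le (continuous_infDist_pt K) continuous_const)

lemma isClosed_Xs : IsClosed Xs :=
  (isClosed_Icc.preimage Complex.continuous_re).inter (isClosed_Icc.preimage Complex.continuous_im)

lemma Xs_subset_B0 : Xs ⊆ B0 := by
  rintro z ⟨⟨h1, h2⟩, ⟨h3, h4⟩⟩
  simp only [lam] at *
  refine ⟨⟨?_, ?_⟩, ⟨?_, ?_⟩⟩ <;> linarith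

lemma mem_Xs_of_infDist {y : ℂ} (h : infDist y K ≤ 1 / 400) : y ∈ Xs := by
  obtain ⟨κ, hκ, h1⟩ := isCompact_K.exists_infDist_eq_dist K_ne y
  rw [h1, dist_eq_norm] at h
  have h2 := (Complex.abs_re_le_norm (y - κ)).trans h
  have h3 := (Complex.abs_im_le_norm (y - κ)).trans h
  rw [Complex.sub_re, abs_le] at h2
  rw [Complex.sub_im, abs_le] at h3
  obtain ⟨⟨a1, a2⟩, ⟨a3, a4⟩⟩ := K_subset_Q0 hκ
  simp only [Xs, mem_ofPred_eq, mem_Icc, lam]
  refine ⟨⟨?_, ?_⟩, ⟨?_, ?_⟩⟩ <;> linarith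

lemma notMem_K_of_pos {y : ℂ} (h : 0 < infDist y K) : y ∉ K := fun hy => by
  rw [infDist_zero_of_mem hy] at h; exact lt_irrefl _ h

lemma AA_subset_Om : AA ⊆ Om := fun y hy =>
  ⟨Xs_subset_B0 (mem_Xs_of_infDist hy.2), notMem_K_of_pos (lt_of_lt_of_le (by
    have := lam_pos; positivity) hy.1)⟩

lemma isBounded_Xs : Bornology.IsBounded Xs := isBounded_B0.subset Xs_subset_B0

lemma isCompact_AA : IsCompact AA :=
  Metric.isCompact_of_isClosed_isBounded isClosed_AA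
    (isBounded_Xs.subset fun _ hy => mem_Xs_of_infDist hy.2)

lemma Om_pos {z : ℂ} (hz : z ∈ Om) : 0 < infDist z K :=
  (isClosed_K.notMem_iff_infDist_pos K_ne).1 hz.2

/-- rescaling of points close to `K` -/
lemma scale_point {z : ℂ} (hz : z ∈ Om) (h : infDist z K ≤ 1 / 400) :
    ∃ w : List Dg, ∃ y ∈ AA, z = Fm w y ∧ lam ^ w.length * (lam / 400) ≤ infDist z K := by
  have hpos := Om_pos hz
  obtain ⟨n, hn1, hn2⟩ := exists_nat_pow_near_of_lt_one (x := 400 * infDist z K) (by positivity)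
    (by linarith) lam_pos lam_lt_one
  obtain ⟨ζ, hζ, h1⟩ := isCompact_K.exists_infDist_eq_dist K_ne z
  obtain ⟨w, hw, ζ', hζ', rfl⟩ := K_decomp hζ n
  obtain ⟨y, rfl⟩ := Fm_surj w z
  have hl := lamn_pos w
  rw [Fm_dist] at h1
  have h2 : infDist y K ≤ dist y ζ' := infDist_le_dist_of_mem hζ'
  rw [hw] at h1 hl
  rw [pow_succ] at hn1
  refine ⟨w, y, ⟨?_, ?_⟩, rfl, ?_⟩
  · rw [le_infDist K_ne]
    intro κ hκ
    have h3 : infDist (Fm w y) K ≤ dist (Fm w y) (Fm w κ) :=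
      infDist_le_dist_of_mem (Fm_mem_K hκ)
    rw [Fm_dist, hw] at h3
    have h4 : lam ^ n * (lam / 400) ≤ lam ^ n * dist y κ := by linarith
    exact le_of_mul_le_mul_left h4 hl
  · refine h2.trans ?_
    have h4 : lam ^ n * dist y ζ' ≤ lam ^ n * (1 / 400) := by linarith
    exact le_of_mul_le_mul_left h4 hl
  · rw [hw]; linarith

lemma Fm_tendsto (w : List Dg) {ζ : ℂ} : Tendsto (Fm w) (𝓝[Om] ζ) (𝓝[Om] (Fm w ζ)) :=
  tendsto_nhdsWithin_iff.2 ⟨((Fm_continuous w).tendsto ζ).mono_left nhdsWithin_le_nhds, by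
    filter_upwards [self_mem_nhdsWithin] with z hz using Fm_mem_Om hz⟩

lemma SH.compF {v : ℂ → ℝ} (h : SH Om v) (w : List Dg) : SH Om (fun z => v (Fm w z)) :=
  h.comp (lamn_pos w) (cw w) (fun _ hz => Fm_mem_Om hz)

lemma VV.compF {v : ℂ → ℝ} (h : VV v) (w : List Dg) : VV (fun z => v (Fm w z)) where
  sh := h.sh.compF w
  bd := fun ζ hζ ε hε => (Fm_tendsto w).eventually (h.bd (Fm w ζ) (Fm_mem_K hζ) ε hε)

lemma VV.affine {v : ℂ → ℝ} (h : VV v) {q : ℝ} (hq1 : q < 1) (hq : ∀ z ∈ Om, q ≤ v z) :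
    VV (fun z => (v z - q) / (1 - q)) where
  sh := h.sh.affine hq1 hq
  bd := by
    intro ζ hζ ε hε
    have h0 : 0 < 1 - q := by linarith
    filter_upwards [h.bd ζ hζ (ε * (1 - q)) (by positivity)] with z hz
    rw [le_div_iff₀ h0]
    linarith

lemma exists_q0 : ∃ q0 : ℝ, 0 < q0 ∧ q0 < 1 ∧ ∀ v, VV v → ∀ z ∈ Xs, z ∉ K → q0 ≤ v z := by
  obtain ⟨T, hTo, hTne, hTO, c, hc, hcv⟩ := nonpolar
  let A2 : Set ℂ := {z | z ∈ Xs ∧ lam / 400 ≤ infDist z K}
  have hl := lam_pos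
  have hA2c : IsCompact A2 := Metric.isCompact_of_isClosed_isBounded
    (isClosed_Xs.inter (isClosed_le continuous_const (continuous_infDist_pt K)))
    (isBounded_Xs.subset fun z hz => hz.1)
  have hA2O : A2 ⊆ Om := fun z hz => ⟨Xs_subset_B0 hz.1,
    notMem_K_of_pos (lt_of_lt_of_le (by positivity) hz.2)⟩
  obtain ⟨p, hp, hp1, hpv⟩ := harnack isOpen_Om isPreconnected_Om hTo hTne hTO hA2c hA2O
  refine ⟨min (p * c) (1/2), by positivity, lt_of_le_of_lt (min_le_right _ _) (by norm_num), ?_⟩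
  have key : ∀ v, VV v → ∀ z ∈ A2, p * c ≤ v z := by
    intro v hv z hz
    have := hpv v hv.sh 0 c hc.le hv.sh.nonneg (hcv v hv) z hz
    linarith
  intro v hv z hz hzK
  refine (min_le_left _ _).trans ?_
  by_cases h : lam / 400 ≤ infDist z K
  · exact key v hv z ⟨hz, h⟩
  · have hzO : z ∈ Om := ⟨Xs_subset_B0 hz, hzK⟩
    have h1 : infDist z K ≤ 1 / 400 := by
      have := lam_lt_one
      linarith
    obtain ⟨w, y, hy, rfl, -⟩ := scale_point hzO h1
    exact key _ (hv.compF w) y ⟨mem_Xs_of_infDist hy.2, hy.1⟩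

lemma Fm_one_mem_Xs (d : Dg) {z : ℂ} (hz : z ∈ B0) : Fm [d] z ∈ Xs := by
  constructor
  · rw [Fm_cons_re, Fm_nil]
    exact Ioo_subset_Icc_self (step_B0 hz.1)
  · rw [Fm_cons_im, Fm_nil]
    exact Ioo_subset_Icc_self (step_B0 hz.2)

/-- regularity of `K`, quantitative form -/
lemma regular {q0 : ℝ} (_hq0 : 0 < q0) (hq1 : q0 < 1)
    (hq : ∀ v, VV v → ∀ z ∈ Xs, z ∉ K → q0 ≤ v z) (m : ℕ) : ∀ v, VV v → ∀ w : List Dg,
    w.length = m → ∀ z ∈ Om, 1 - (1 - q0) ^ m ≤ v (Fm w z) := by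
  induction m with
  | zero =>
    intro v hv w _ z hz
    have := hv.sh.nonneg _ (Fm_mem_Om (w := w) hz)
    simpa using this
  | succ m ih =>
    intro v hv w hw z hz
    obtain ⟨d, w', rfl⟩ := List.exists_cons_of_length_eq_add_one hw
    have hw' : w'.length = m := by simpa using hw
    have h1 := hv.compF [d]
    have h2 : ∀ z ∈ Om, q0 ≤ v (Fm [d] z) := fun z hz =>
      hq v hv _ (Fm_one_mem_Xs d hz.1) (Fm_mem_Om hz).2
    have h3 := ih _ (h1.affine hq1 h2) w' hw' z hz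
    have h0 : 0 < 1 - q0 := by linarith
    rw [le_div_iff₀ h0] at h3
    have e : Fm (d :: w') z = Fm [d] (Fm w' z) := by rw [← Fm_append]; rfl
    rw [e, pow_succ]
    linarith

/-- the pattern -/
def Pw : List Dg := [(false, false), (true, true), (true, true), (true, true), (true, true)]

/-- words consisting of zeros -/
def zw (m : ℕ) : List Dg := List.replicate m (false, false)

lemma corner_Pw {y : ℂ} (hy : y ∈ Q0) : Corner (Fm Pw y) := by
  obtain ⟨⟨a1, a2⟩, ⟨a3, a4⟩⟩ := hy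
  simp only [Corner, Pw, Fm_cons_re, Fm_cons_im, Fm_nil, bv_true, bv_false, mem_Icc, lam]
  refine ⟨⟨?_, ?_⟩, ⟨?_, ?_⟩⟩ <;> linarith

lemma isOpen_image_Fm (w : List Dg) {T : Set ℂ} (hT : IsOpen T) : IsOpen (Fm w '' T) := by
  have hne : ((lam ^ w.length : ℝ) : ℂ) ≠ 0 := by exact_mod_cast (lamn_pos w).ne'
  have e : Fm w '' T = (fun z => (z - cw w) / ((lam ^ w.length : ℝ) : ℂ)) ⁻¹' T := by
    ext z
    constructor
    · rintro ⟨y, hy, rfl⟩
      have : (Fm w y - cw w) / ((lam ^ w.length : ℝ) : ℂ) = y := by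
        simp only [Fm]; field_simp; ring
      change (Fm w y - cw w) / ((lam ^ w.length : ℝ) : ℂ) ∈ T
      rw [this]; exact hy
    · intro hz
      refine ⟨_, hz, ?_⟩
      simp only [Fm]; field_simp; ring
  rw [e]
  exact hT.preimage (by fun_prop)

lemma Om_ne : Om.Nonempty := by
  refine ⟨⟨-1/200, 0⟩, ⟨⟨?_, ?_⟩, ⟨?_, ?_⟩⟩, fun h => ?_⟩
  · norm_num
  · norm_num
  · norm_num
  · norm_num
  · have := (C1_subset h.1).1
    norm_num at this

/-- The zero-one law. -/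
lemma zero_one {v : ℂ → ℝ} (hv : SH Om v) {a : ℝ} (ha : 0 ≤ a) (m : ℕ)
    (h : ∀ w : List Dg, ∀ z ∈ Om, a ≤ v (Fm (w ++ (Pw ++ zw m)) z)) {ε : ℝ} (hε : 0 < ε) :
    ∃ δ > 0, ∀ z ∈ Om, infDist z K < δ → a - ε ≤ v z := by
  have hT : Fm (Pw ++ zw m) '' Om ⊆ Om := by
    rintro _ ⟨y, hy, rfl⟩
    exact Fm_mem_Om hy
  obtain ⟨p, hp, hp1, hpv⟩ := harnack isOpen_Om isPreconnected_Om
    (isOpen_image_Fm (Pw ++ zw m) isOpen_Om) (Om_ne.image _) hT isCompact_AA AA_subset_Om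
  let L : Set ℝ := {ℓ | ℓ ≤ a ∧ ∃ δ > 0, ∀ z ∈ Om, infDist z K < δ → ℓ ≤ v z}
  have h0L : (0:ℝ) ∈ L := ⟨ha, 1, one_pos, fun z hz _ => hv.nonneg z hz⟩
  have hLbd : BddAbove L := ⟨a, fun ℓ hℓ => hℓ.1⟩
  have hstep : ∀ ℓ ∈ L, ℓ + p * (a - ℓ) ∈ L := by
    rintro ℓ ⟨hℓa, δ, hδ, hℓ⟩
    refine ⟨by nlinarith, ?_⟩
    -- all sufficiently long words work
    obtain ⟨n, hn⟩ : ∃ n : ℕ, lam ^ n * 6 < δ := by
      have ht : Tendsto (fun k : ℕ => lam ^ k * 6) atTop (𝓝 (0 * 6)) :=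
        (tendsto_pow_atTop_nhds_zero_of_lt_one lam_pos.le lam_lt_one).mul_const _
      rw [zero_mul] at ht
      exact (ht.eventually (gt_mem_nhds hδ)).exists
    have hl := lam_pos
    refine ⟨min (1/400) (lam ^ n * (lam / 400)), by positivity, ?_⟩
    intro z hz hzd
    obtain ⟨w, y, hy, rfl, hwl⟩ := scale_point hz (hzd.le.trans (min_le_left _ _))
    have h1 : lam ^ w.length * (lam / 400) < lam ^ n * (lam / 400) :=
      lt_of_le_of_lt hwl (lt_of_lt_of_le hzd (min_le_right _ _))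
    have h2 : lam ^ w.length < lam ^ n := lt_of_mul_lt_mul_right h1 (by positivity)
    have h3 : ∀ x ∈ Om, ℓ ≤ v (Fm w x) := by
      intro x hx
      refine hℓ _ (Fm_mem_Om hx) ?_
      have h4 : infDist (Fm w x) K ≤ dist (Fm w x) (Fm w 0) :=
        infDist_le_dist_of_mem (Fm_mem_K zero_mem_K)
      rw [Fm_dist, dist_zero_right] at h4
      have h5 := norm_le_of_B0 hx.1
      have h6 := norm_nonneg x
      have h7 : 0 < lam ^ w.length := lamn_pos w
      nlinarith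
    have h4 : ∀ x ∈ Fm (Pw ++ zw m) '' Om, a ≤ v (Fm w x) := by
      rintro _ ⟨x, hx, rfl⟩
      rw [← Fm_append]
      exact h w x hx
    exact hpv _ (hv.compF w) ℓ a hℓa h3 h4 y hy
  have hsup : sSup L = a := by
    apply le_antisymm (csSup_le ⟨0, h0L⟩ fun ℓ hℓ => hℓ.1)
    by_contra hlt
    push Not at hlt
    set s := sSup L with hs
    have hη : 0 < p * (a - s) / 2 := by
      have : 0 < a - s := by linarith
      positivity
    obtain ⟨ℓ, hℓ, hℓs⟩ := exists_lt_of_lt_csSup ⟨0, h0L⟩ (show s - p * (a - s) / 2 < sSup L by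
      rw [← hs]; linarith)
    have h1 := le_csSup hLbd (hstep ℓ hℓ)
    have h2 : ℓ ≤ s := le_csSup hLbd hℓ
    rw [← hs] at h1
    nlinarith
  obtain ⟨ℓ, hℓ, hℓs⟩ := exists_lt_of_lt_csSup ⟨0, h0L⟩ (show a - ε < sSup L by
    rw [hsup]; linarith)
  obtain ⟨-, δ, hδ, h1⟩ := hℓ
  exact ⟨δ, hδ, fun z hz hzd => hℓs.le.trans (h1 z hz hzd)⟩

lemma game_step {q0 : ℝ} (hq0 : 0 < q0) (hq1 : q0 < 1)
    (hq : ∀ v, VV v → ∀ z ∈ Xs, z ∉ K → q0 ≤ v z) {v : ℂ → ℝ} (hv : SH Om v) {a : ℝ} (ha : 0 < a)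
    (m : ℕ) (h : ∀ w : List Dg, ∀ z ∈ Om, a ≤ v (Fm (w ++ (Pw ++ zw m)) z)) (u : List Dg) {z : ℂ}
    (hz : z ∈ Om) : a * (1 - (1 - q0) ^ u.length) ≤ v (Fm u z) := by
  have hVV : VV (fun z => min (v z / a) 1) := by
    refine ⟨hv.scale ha, fun ζ hζ ε hε => ?_⟩
    obtain ⟨δ, hδ, h1⟩ := zero_one hv ha.le m h (ε := a * ε) (by positivity)
    have h2 : ∀ᶠ z in 𝓝[Om] ζ, infDist z K < δ := by
      have h3 : infDist ζ K < δ := by rw [infDist_zero_of_mem hζ]; exact hδ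
      exact ((continuous_infDist_pt K).continuousAt.eventually (gt_mem_nhds h3)).filter_mono
        nhdsWithin_le_nhds
    filter_upwards [h2, self_mem_nhdsWithin] with z hz hzO
    refine le_min ?_ (by linarith)
    rw [le_div_iff₀ ha]
    have := h1 z hzO hz
    linarith
  have h1 := regular hq0 hq1 hq u.length _ hVV u rfl z hz
  have h2 := h1.trans (min_le_left _ _)
  rw [le_div_iff₀ ha] at h2
  linarith

/-- bad points -/
def Bad (ζ : ℂ) : Prop := ∀ n : ℕ, ∃ w : List Dg, n ≤ w.length ∧ ∃ ζ' : ℂ, Corner ζ' ∧ ζ = Fm w ζ'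

/-- The selection of a bad point at which a given superharmonic function is small. -/
theorem game : ∃ z0 ∈ Om, ∀ v, SH Om v → v z0 < 1/2 →
    ∃ ζ ∈ K, ζ ∈ closure Om ∧ Bad ζ ∧ ∃ᶠ z in 𝓝[Om] ζ, v z < 3/4 := by
  obtain ⟨q0, hq0, hq1, hq⟩ := exists_q0
  let a : ℕ → ℝ := fun k => 3/4 - 1/4 * (1/2) ^ k
  have ha0 : a 0 = 1/2 := by norm_num [a]
  have ha34 : ∀ k, a k < 3/4 := fun k => by
    have : (0:ℝ) < (1/2) ^ k := by positivity
    simp only [a]; linarith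
  have hapos : ∀ k, 0 < a k := fun k => by
    have : (1/2:ℝ) ^ k ≤ 1 := pow_le_one₀ (by norm_num) (by norm_num)
    simp only [a]; linarith
  have hm : ∀ k : ℕ, ∃ m : ℕ, (1 - q0) ^ m ≤ 1/8 * (1/2) ^ k := by
    intro k
    have ht := tendsto_pow_atTop_nhds_zero_of_lt_one (r := 1 - q0) (by linarith) (by linarith)
    have hp : (0:ℝ) < 1/8 * (1/2) ^ k := by positivity
    obtain ⟨m, hm⟩ := (ht.eventually (gt_mem_nhds hp)).exists
    exact ⟨m, le_of_lt hm⟩
  choose m hm using hm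
  have ham : ∀ k, a k ≤ a (k + 1) * (1 - (1 - q0) ^ (m k)) := by
    intro k
    have h1 := hm k
    have h2 : (0:ℝ) ≤ (1 - q0) ^ (m k) := pow_nonneg (by linarith) _
    have h3 : a (k + 1) - a k = 1/8 * (1/2) ^ k := by simp only [a, pow_succ]; ring
    have h4 := ha34 (k + 1)
    have h5 := hapos (k + 1)
    nlinarith
  obtain ⟨y0, hy0⟩ := Om_ne
  refine ⟨Fm (zw (m 0)) y0, Fm_mem_Om hy0, ?_⟩
  intro v hv hvz
  let S : ℕ → Type := fun k => {p : List Dg × ℂ // p.2 ∈ Om ∧ v (Fm p.1 (Fm (zw (m k)) p.2)) < a k}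
  have hstep : ∀ k (p : S k), ∃ p' : S (k + 1), ∃ w : List Dg, p'.1.1 = p.1.1 ++ (w ++ Pw) := by
    rintro k ⟨⟨W, y⟩, hy, hlt⟩
    by_contra hcon
    push Not at hcon
    have h1 : ∀ w : List Dg, ∀ z ∈ Om, a (k + 1) ≤ v (Fm W (Fm (w ++ (Pw ++ zw (m (k + 1)))) z)) := by
      intro w z hz
      by_contra hlt2
      push Not at hlt2
      refine hcon ⟨(W ++ (w ++ Pw), z), hz, ?_⟩ w rfl
      have e : Fm (W ++ (w ++ Pw)) (Fm (zw (m (k + 1))) z)
          = Fm W (Fm (w ++ (Pw ++ zw (m (k + 1)))) z) := by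
        rw [← Fm_append, ← Fm_append]
        simp only [List.append_assoc]
      rw [e]; exact hlt2
    have h2 := game_step hq0 hq1 hq (hv.compF W) (hapos (k + 1)) (m (k + 1)) h1 (zw (m k)) hy
    have h3 : (zw (m k)).length = m k := by simp [zw]
    rw [h3] at h2
    have := ham k
    simp only at hlt h2
    linarith
  choose next hnext using hstep
  let f : (k : ℕ) → S k := fun k => Nat.rec (motive := S) ⟨([], y0), hy0, by
    simp only [Fm_nil]; rw [ha0]; exact hvz⟩ (fun k p => next k p) k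
  have hf : ∀ k, f (k + 1) = next k (f k) := fun k => rfl
  let W : ℕ → List Dg := fun k => (f k).1.1
  let y : ℕ → ℂ := fun k => (f k).1.2
  have hW : ∀ k, ∃ w : List Dg, W (k + 1) = W k ++ (w ++ Pw) := by
    intro k
    obtain ⟨w, hw⟩ := hnext k (f k)
    exact ⟨w, by simp only [W]; rw [hf]; exact hw⟩
  have hyO : ∀ k, y k ∈ Om := fun k => (f k).2.1
  have hvy : ∀ k, v (Fm (W k) (Fm (zw (m k)) (y k))) < a k := fun k => (f k).2.2
  have hlen : ∀ k, k ≤ (W k).length := by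
    intro k
    induction k with
    | zero => exact Nat.zero_le _
    | succ k ih =>
      obtain ⟨w, hw⟩ := hW k
      rw [hw]
      simp only [List.length_append, Pw, List.length_cons, List.length_nil]
      omega
  have hpre : ∀ k j, ∃ u : List Dg, W (k + j) = W k ++ u := by
    intro k j
    induction j with
    | zero => exact ⟨[], by simp⟩
    | succ j ih =>
      obtain ⟨u, hu⟩ := ih
      obtain ⟨w, hw⟩ := hW (k + j)
      exact ⟨u ++ (w ++ Pw), by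
        rw [← Nat.add_assoc, hw, hu]; simp only [List.append_assoc]⟩
  let x : ℕ → ℂ := fun k => Fm (W k) 0
  have hlk : ∀ k, lam ^ (W k).length ≤ lam ^ k := fun k =>
    pow_le_pow_of_le_one lam_pos.le lam_lt_one.le (hlen k)
  have hcauchy : CauchySeq x := by
    refine cauchySeq_of_le_geometric lam 3 lam_lt_one fun k => ?_
    obtain ⟨w, hw⟩ := hW k
    simp only [x]
    rw [hw, Fm_append, Fm_dist, dist_zero_left]
    have h1 := norm_le_of_B0 (Q0_subset_B0 (K_subset_Q0 (Fm_mem_K (w := w ++ Pw) zero_mem_K)))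
    have h2 := hlk k
    have h3 : 0 < lam ^ (W k).length := lamn_pos _
    have h4 := norm_nonneg (Fm (w ++ Pw) 0)
    nlinarith
  obtain ⟨ζ, hζ⟩ := cauchySeq_tendsto_of_complete hcauchy
  have hmem : ∀ k, ∃ κ ∈ K, ζ = Fm (W k) κ := by
    intro k
    have hcl : IsClosed (Fm (W k) '' K) := (isCompact_K.image (Fm_continuous _)).isClosed
    have h1 : ζ ∈ Fm (W k) '' K := by
      refine hcl.mem_of_tendsto hζ ?_
      filter_upwards [eventually_ge_atTop k] with j hj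
      obtain ⟨i, rfl⟩ := Nat.exists_eq_add_of_le hj
      obtain ⟨u, hu⟩ := hpre k i
      refine ⟨Fm u 0, Fm_mem_K zero_mem_K, ?_⟩
      simp only [x]
      rw [hu, Fm_append]
    obtain ⟨κ, hκ, h2⟩ := h1
    exact ⟨κ, hκ, h2.symm⟩
  let P : ℕ → ℂ := fun k => Fm (W k) (Fm (zw (m k)) (y k))
  have hPO : ∀ k, P k ∈ Om := fun k => Fm_mem_Om (Fm_mem_Om (hyO k))
  have hPlim : Tendsto P atTop (𝓝 ζ) := by
    rw [tendsto_iff_dist_tendsto_zero]
    have ht : Tendsto (fun k : ℕ => 6 * lam ^ k) atTop (𝓝 (6 * 0)) :=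
      (tendsto_pow_atTop_nhds_zero_of_lt_one lam_pos.le lam_lt_one).const_mul 6
    rw [mul_zero] at ht
    refine squeeze_zero (fun _ => dist_nonneg) (fun k => ?_) ht
    obtain ⟨κ, hκ, h1⟩ := hmem k
    rw [h1, Fm_dist]
    have h2 : dist (Fm (zw (m k)) (y k)) κ ≤ 6 := by
      have h3 := norm_le_of_B0 (Fm_mem_Om (w := zw (m k)) (hyO k)).1
      have h4 := norm_le_of_B0 (Q0_subset_B0 (K_subset_Q0 hκ))
      rw [dist_eq_norm]
      linarith [norm_sub_le (Fm (zw (m k)) (y k)) κ]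
    have h3 := hlk k
    have h4 : 0 < lam ^ (W k).length := lamn_pos _
    have h5 := dist_nonneg (x := Fm (zw (m k)) (y k)) (y := κ)
    nlinarith
  have hζK : ζ ∈ K := by
    obtain ⟨κ, hκ, h1⟩ := hmem 0
    rw [h1]; exact Fm_mem_K hκ
  have hPw : Tendsto P atTop (𝓝[Om] ζ) :=
    tendsto_nhdsWithin_iff.2 ⟨hPlim, Eventually.of_forall hPO⟩
  refine ⟨ζ, hζK, ?_, ?_, ?_⟩
  · exact mem_closure_of_tendsto hPlim (Eventually.of_forall hPO)
  · intro n
    obtain ⟨w, hw⟩ := hW n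
    obtain ⟨κ, hκ, h1⟩ := hmem (n + 1)
    refine ⟨W n ++ w, ?_, Fm Pw κ, corner_Pw (K_subset_Q0 hκ), ?_⟩
    · rw [List.length_append]
      have := hlen n
      omega
    · rw [h1, hw, ← Fm_append]
      simp only [List.append_assoc]
  · refine hPw.frequently (Frequently.of_forall fun k => ?_)
    exact (hvy k).trans (ha34 k)

end Pool.Agent.H783R2
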