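import Pool.Agent.H783R2.Arc.Cantor

/-! # Circles hit the Cantor set in the diagonal directions -/

set_option autoImplicit false
open Set Filter Topology Metric MeasureTheory Real

namespace Pool.Agent.H783R2

/-- the two outer intervals -/
def Good (v : ℝ) : Prop := (0 ≤ v ∧ v ≤ lam) ∨ (1 - lam ≤ v ∧ v ≤ 1)

lemma good_dir {u : ℝ} (hu : Good u) :
    ∃ e : ℝ, (e = 1 ∨ e = -1) ∧ ∀ q : ℝ, 1/100 ≤ q → q ≤ 1/40 → Good (u + e * q) := by
  unfold Good lam at *
  rcases hu with ⟨h1, h2⟩ | ⟨h1, h2⟩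
  · rcases le_total u (1/4) with h | h
    · exact ⟨1, Or.inl rfl, fun q hq1 hq2 => Or.inl ⟨by linarith, by linarith⟩⟩
    · exact ⟨-1, Or.inr rfl, fun q hq1 hq2 => Or.inl ⟨by linarith, by linarith⟩⟩
  · rcases le_total u (3/4) with h | h
    · exact ⟨1, Or.inl rfl, fun q hq1 hq2 => Or.inr ⟨by linarith, by linarith⟩⟩
    · exact ⟨-1, Or.inr rfl, fun q hq1 hq2 => Or.inr ⟨by linarith, by linarith⟩⟩

lemma bad_move {u : ℝ} (hu : u ∈ Icc (0:ℝ) 1) (hb : ¬ Good u) {e : ℝ} (he : e = 1 ∨ e = -1)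
    {q : ℝ} (hq1 : 1/100 ≤ q) (hq2 : q ≤ 1/40) : Good (u + e * q) := by
  obtain ⟨h0, h1⟩ := hu
  have h2 : lam < u := by
    by_contra h; exact hb (Or.inl ⟨h0, not_lt.1 h⟩)
  have h3 : u < 1 - lam := by
    by_contra h; exact hb (Or.inr ⟨not_lt.1 h, h1⟩)
  unfold Good
  simp only [lam] at *
  rcases he with rfl | rfl
  · right; constructor <;> linarith
  · left; constructor <;> linarith

lemma good_digit {u : ℝ} (hu : Good u) :
    ∃ b : Bool, ∃ y ∈ Icc (0:ℝ) 1, u = lam * y + (1 - lam) * bv b := by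
  have hl := lam_pos
  rcases hu with ⟨h1, h2⟩ | ⟨h1, h2⟩
  · refine ⟨false, u / lam, ⟨by positivity, by rw [div_le_one hl]; exact h2⟩, ?_⟩
    field_simp; simp
  · refine ⟨true, (u - (1 - lam)) / lam, ⟨div_nonneg (by linarith) hl.le, ?_⟩, ?_⟩
    · rw [div_le_one hl]; linarith
    · field_simp; simp

lemma sqrt2_bd : 1 ≤ √2 ∧ √2 ≤ 3 / 2 := by
  constructor
  · rw [Real.one_le_sqrt]; norm_num
  · rw [Real.sqrt_le_left (by norm_num)]; norm_num

/-- the basic increment estimate -/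
lemma inc_aux {c m d : ℝ} (hc : c = 1 ∨ c = -1) (hm : |m| ≤ 1/4) (hd0 : 0 ≤ d) (hd : d ≤ 1/4) :
    (2/5) * (2 * d) ≤ 2 * Real.sin d * ((Real.cos m + c * Real.sin m) / √2) ∧
    2 * Real.sin d * ((Real.cos m + c * Real.sin m) / √2) ≤ 2 * d := by
  obtain ⟨h1, h2⟩ := sqrt2_bd
  have hs0 : 0 < √2 := by positivity
  have hcos : 1 - m ^ 2 / 2 ≤ Real.cos m := Real.one_sub_sq_div_two_le_cos
  have hm2 : m ^ 2 ≤ 1 / 16 := by
    have : m ^ 2 = |m| ^ 2 := (sq_abs m).symm
    rw [this]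
    have := abs_nonneg m
    nlinarith
  have hsin : |Real.sin m| ≤ 1/4 := (Real.abs_sin_le_abs).trans hm
  have hcs : |c * Real.sin m| ≤ 1/4 := by
    rcases hc with rfl | rfl
    · simpa using hsin
    · simpa using hsin
  have hcs1 := (abs_le.1 hcs).1
  have hlow : 23/32 ≤ Real.cos m + c * Real.sin m := by linarith
  have hup : Real.cos m + c * Real.sin m ≤ √2 := by
    apply Real.le_sqrt_of_sq_le
    have h3 := Real.sin_sq_add_cos_sq m
    rcases hc with rfl | rfl
    · nlinarith [sq_nonneg (Real.cos m - Real.sin m)]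
    · nlinarith [sq_nonneg (Real.cos m + Real.sin m)]
  have hsd : Real.sin d ≤ d := Real.sin_le hd0
  have hsd2 : (15/16) * d ≤ Real.sin d := by
    rcases eq_or_lt_of_le hd0 with h | h
    · rw [← h]; simp
    · have h4 := Real.sin_gt_sub_cube h
      have h5 : d ^ 3 / 6 ≤ d / 16 := by
        have : d ^ 2 ≤ 1/16 := by nlinarith
        nlinarith
      linarith
  have hq1 : 23/48 ≤ (Real.cos m + c * Real.sin m) / √2 := by
    rw [le_div_iff₀ hs0]; nlinarith
  have hq2 : (Real.cos m + c * Real.sin m) / √2 ≤ 1 := by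
    rw [div_le_one hs0]; exact hup
  have hsn : 0 ≤ Real.sin d := by
    have : 0 ≤ (15/16) * d := by positivity
    linarith
  constructor
  · calc (2/5) * (2 * d) ≤ 2 * ((15/16) * d) * (23/48) := by nlinarith
      _ ≤ 2 * Real.sin d * ((Real.cos m + c * Real.sin m) / √2) := by
        apply mul_le_mul (by linarith) hq1 (by norm_num) (by linarith)
  · calc 2 * Real.sin d * ((Real.cos m + c * Real.sin m) / √2) ≤ 2 * Real.sin d * 1 := by
          apply mul_le_mul_of_nonneg_left hq2 (by linarith)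
      _ ≤ 2 * d := by linarith

/-- increments of the coordinates of a circle near a diagonal direction -/
lemma inc_cos {θ α β u u' : ℝ} (hα : α = 1 ∨ α = -1) (hβ : β = 1 ∨ β = -1)
    (hc : Real.cos θ = α / √2) (hs : Real.sin θ = β / √2) (hu : |u| ≤ 1/4) (hu' : |u'| ≤ 1/4)
    (huu : u ≤ u') :
    (2/5) * (u' - u) ≤ -β * (Real.cos (θ + u') - Real.cos (θ + u)) ∧
    -β * (Real.cos (θ + u') - Real.cos (θ + u)) ≤ u' - u := by
  have hm : |(u + u') / 2| ≤ 1/4 := by
    rw [abs_le] at *; constructor <;> linarith [hu.1, hu.2, hu'.1, hu'.2]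
  have hd : (u' - u) / 2 ≤ 1/4 := by
    rw [abs_le] at *; linarith [hu.1, hu'.2]
  have key := inc_aux (c := α * β) (m := (u + u') / 2) (d := (u' - u) / 2)
    (by rcases hα with rfl | rfl <;> rcases hβ with rfl | rfl <;> norm_num) hm (by linarith) hd
  have e1 : Real.cos (θ + u') - Real.cos (θ + u)
      = -2 * Real.sin ((u' - u) / 2) * Real.sin (θ + (u + u') / 2) := by
    rw [Real.cos_sub_cos]
    have e2 : (θ + u' + (θ + u)) / 2 = θ + (u + u') / 2 := by ring
    have e3 : (θ + u' - (θ + u)) / 2 = (u' - u) / 2 := by ring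
    rw [e2, e3]; ring
  have e4 : Real.sin (θ + (u + u') / 2)
      = (β * Real.cos ((u + u') / 2) + α * Real.sin ((u + u') / 2)) / √2 := by
    rw [Real.sin_add, hc, hs]; ring
  have hβ2 : β * β = 1 := by rcases hβ with rfl | rfl <;> norm_num
  have e5 : -β * (Real.cos (θ + u') - Real.cos (θ + u))
      = 2 * Real.sin ((u' - u) / 2) *
        ((Real.cos ((u + u') / 2) + α * β * Real.sin ((u + u') / 2)) / √2) := by
    rw [e1, e4]
    have : (Real.cos ((u + u') / 2) + α * β * Real.sin ((u + u') / 2))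
      = β * (β * Real.cos ((u + u') / 2) + α * Real.sin ((u + u') / 2)) := by
      linear_combination (-Real.cos ((u + u') / 2)) * hβ2
    rw [this]; ring
  rw [e5]
  have e6 : u' - u = 2 * ((u' - u) / 2) := by ring
  rw [e6]
  have e7 : 2 * ((u' - u) / 2) / 2 = (u' - u) / 2 := by ring
  rw [e7]
  exact key

lemma inc_sin {θ α β u u' : ℝ} (hα : α = 1 ∨ α = -1) (hβ : β = 1 ∨ β = -1)
    (hc : Real.cos θ = α / √2) (hs : Real.sin θ = β / √2) (hu : |u| ≤ 1/4) (hu' : |u'| ≤ 1/4)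
    (huu : u ≤ u') :
    (2/5) * (u' - u) ≤ α * (Real.sin (θ + u') - Real.sin (θ + u)) ∧
    α * (Real.sin (θ + u') - Real.sin (θ + u)) ≤ u' - u := by
  have hm : |(u + u') / 2| ≤ 1/4 := by
    rw [abs_le] at *; constructor <;> linarith [hu.1, hu.2, hu'.1, hu'.2]
  have hd : (u' - u) / 2 ≤ 1/4 := by
    rw [abs_le] at *; linarith [hu.1, hu'.2]
  have key := inc_aux (c := -(α * β)) (m := (u + u') / 2) (d := (u' - u) / 2)
    (by rcases hα with rfl | rfl <;> rcases hβ with rfl | rfl <;> norm_num) hm (by linarith) hd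
  have e1 : Real.sin (θ + u') - Real.sin (θ + u)
      = 2 * Real.sin ((u' - u) / 2) * Real.cos (θ + (u + u') / 2) := by
    rw [Real.sin_sub_sin]
    have e2 : (θ + u' + (θ + u)) / 2 = θ + (u + u') / 2 := by ring
    have e3 : (θ + u' - (θ + u)) / 2 = (u' - u) / 2 := by ring
    rw [e2, e3]
  have e4 : Real.cos (θ + (u + u') / 2)
      = (α * Real.cos ((u + u') / 2) - β * Real.sin ((u + u') / 2)) / √2 := by
    rw [Real.cos_add, hc, hs]; ring
  have hα2 : α * α = 1 := by rcases hα with rfl | rfl <;> norm_num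
  have e5 : α * (Real.sin (θ + u') - Real.sin (θ + u))
      = 2 * Real.sin ((u' - u) / 2) *
        ((Real.cos ((u + u') / 2) + -(α * β) * Real.sin ((u + u') / 2)) / √2) := by
    rw [e1, e4]
    have : (Real.cos ((u + u') / 2) + -(α * β) * Real.sin ((u + u') / 2))
      = α * (α * Real.cos ((u + u') / 2) - β * Real.sin ((u + u') / 2)) := by
      linear_combination (-Real.cos ((u + u') / 2)) * hα2
    rw [this]; ring
  rw [e5]
  have e6 : u' - u = 2 * ((u' - u) / 2) := by ring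
  rw [e6]
  have e7 : 2 * ((u' - u) / 2) / 2 = (u' - u) / 2 := by ring
  rw [e7]
  exact key

lemma circle_re (z : ℂ) (s t : ℝ) : (circleMap z s t).re = z.re + s * Real.cos t := by
  simp [circleMap, Complex.exp_re]

lemma circle_im (z : ℂ) (s t : ℝ) : (circleMap z s t).im = z.im + s * Real.sin t := by
  simp [circleMap, Complex.exp_im]

/-- One step: moving slightly along the circle we enter a square of the next generation. -/
lemma hit_step {θ α β : ℝ} (hα : α = 1 ∨ α = -1) (hβ : β = 1 ∨ β = -1)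
    (hc : Real.cos θ = α / √2) (hs : Real.sin θ = β / √2) {z : ℂ} {s u : ℝ} (hs0 : 0 < s)
    (hu : |u| + 1 / (40 * s) ≤ 1/4) (hQ : circleMap z s (θ + u) ∈ Q0) :
    ∃ u' : ℝ, |u' - u| ≤ 1 / (40 * s) ∧ ∃ d : Dg, ∃ y ∈ Q0, circleMap z s (θ + u') = Fm [d] y := by
  set δ := 1 / (40 * s) with hδ
  have hδ0 : 0 < δ := by positivity
  have hsδ : s * δ = 1 / 40 := by rw [hδ]; field_simp
  have hu1 : |u| ≤ 1/4 := by linarith
  have habs := abs_le.1 hu1
  have hap : |u + δ| ≤ 1/4 := by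
    calc |u + δ| ≤ |u| + |δ| := abs_add_le _ _
      _ = |u| + δ := by rw [abs_of_pos hδ0]
      _ ≤ 1/4 := hu
  have ham : |u - δ| ≤ 1/4 := by
    calc |u - δ| ≤ |u| + |δ| := abs_sub _ _
      _ = |u| + δ := by rw [abs_of_pos hδ0]
      _ ≤ 1/4 := hu
  -- movement
  have hX : ∀ e : ℝ, (e = 1 ∨ e = -1) → ∃ q, 1/100 ≤ q ∧ q ≤ 1/40 ∧
      (circleMap z s (θ + (u + e * δ))).re = (circleMap z s (θ + u)).re + (-(e * β)) * q := by
    intro e he
    rw [circle_re, circle_re]
    have hβ2 : β * β = 1 := by rcases hβ with rfl | rfl <;> norm_num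
    rcases he with rfl | rfl
    · obtain ⟨h1, h2⟩ := inc_cos hα hβ hc hs hu1 hap (by linarith)
      refine ⟨s * (-β * (Real.cos (θ + (u + δ)) - Real.cos (θ + u))), ?_, ?_, ?_⟩
      · have := mul_le_mul_of_nonneg_left h1 hs0.le
        have e1 : s * (2 / 5 * (u + δ - u)) = 1/100 := by
          have : s * (2 / 5 * (u + δ - u)) = 2/5 * (s * δ) := by ring
          rw [this, hsδ]; norm_num
        linarith
      · have := mul_le_mul_of_nonneg_left h2 hs0.le
        have e1 : s * (u + δ - u) = 1/40 := by rw [← hsδ]; ring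
        linarith
      · rw [one_mul]
        linear_combination (-s * (Real.cos (θ + (u + δ)) - Real.cos (θ + u))) * hβ2
    · obtain ⟨h1, h2⟩ := inc_cos hα hβ hc hs ham hu1 (by linarith)
      have e0 : u + -1 * δ = u - δ := by ring
      rw [e0]
      refine ⟨s * (-β * (Real.cos (θ + u) - Real.cos (θ + (u - δ)))), ?_, ?_, ?_⟩
      · have := mul_le_mul_of_nonneg_left h1 hs0.le
        have e1 : s * (2 / 5 * (u - (u - δ))) = 1/100 := by
          have : s * (2 / 5 * (u - (u - δ))) = 2/5 * (s * δ) := by ring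
          rw [this, hsδ]; norm_num
        linarith
      · have := mul_le_mul_of_nonneg_left h2 hs0.le
        have e1 : s * (u - (u - δ)) = 1/40 := by rw [← hsδ]; ring
        linarith
      · linear_combination (s * (Real.cos (θ + u) - Real.cos (θ + (u - δ)))) * hβ2
  have hY : ∀ e : ℝ, (e = 1 ∨ e = -1) → ∃ q, 1/100 ≤ q ∧ q ≤ 1/40 ∧
      (circleMap z s (θ + (u + e * δ))).im = (circleMap z s (θ + u)).im + (e * α) * q := by
    intro e he
    rw [circle_im, circle_im]
    have hα2 : α * α = 1 := by rcases hα with rfl | rfl <;> norm_num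
    rcases he with rfl | rfl
    · obtain ⟨h1, h2⟩ := inc_sin hα hβ hc hs hu1 hap (by linarith)
      refine ⟨s * (α * (Real.sin (θ + (u + δ)) - Real.sin (θ + u))), ?_, ?_, ?_⟩
      · have := mul_le_mul_of_nonneg_left h1 hs0.le
        have e1 : s * (2 / 5 * (u + δ - u)) = 1/100 := by
          have : s * (2 / 5 * (u + δ - u)) = 2/5 * (s * δ) := by ring
          rw [this, hsδ]; norm_num
        linarith
      · have := mul_le_mul_of_nonneg_left h2 hs0.le
        have e1 : s * (u + δ - u) = 1/40 := by rw [← hsδ]; ring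
        linarith
      · rw [one_mul]
        linear_combination (-s * (Real.sin (θ + (u + δ)) - Real.sin (θ + u))) * hα2
    · obtain ⟨h1, h2⟩ := inc_sin hα hβ hc hs ham hu1 (by linarith)
      have e0 : u + -1 * δ = u - δ := by ring
      rw [e0]
      refine ⟨s * (α * (Real.sin (θ + u) - Real.sin (θ + (u - δ)))), ?_, ?_, ?_⟩
      · have := mul_le_mul_of_nonneg_left h1 hs0.le
        have e1 : s * (2 / 5 * (u - (u - δ))) = 1/100 := by
          have : s * (2 / 5 * (u - (u - δ))) = 2/5 * (s * δ) := by ring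
          rw [this, hsδ]; norm_num
        linarith
      · have := mul_le_mul_of_nonneg_left h2 hs0.le
        have e1 : s * (u - (u - δ)) = 1/40 := by rw [← hsδ]; ring
        linarith
      · linear_combination (s * (Real.sin (θ + u) - Real.sin (θ + (u - δ)))) * hα2
  -- it suffices to make both coordinates good
  suffices h : ∃ u' : ℝ, |u' - u| ≤ δ ∧ Good (circleMap z s (θ + u')).re ∧
      Good (circleMap z s (θ + u')).im by
    obtain ⟨u', h1, h2, h3⟩ := h
    obtain ⟨b, y, hy, e1⟩ := good_digit h2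
    obtain ⟨b', y', hy', e2⟩ := good_digit h3
    refine ⟨u', h1, (b, b'), ⟨y, y'⟩, ⟨hy, hy'⟩, ?_⟩
    apply Complex.ext
    · rw [Fm_cons_re, Fm_nil, e1]
    · rw [Fm_cons_im, Fm_nil, e2]
  have hmove : ∀ e : ℝ, (e = 1 ∨ e = -1) → |u + e * δ - u| ≤ δ := by
    intro e he
    have : u + e * δ - u = e * δ := by ring
    rw [this, abs_mul, abs_of_pos hδ0]
    rcases he with rfl | rfl <;> simp
  have hsg : ∀ a b : ℝ, (a = 1 ∨ a = -1) → (b = 1 ∨ b = -1) → (a * b = 1 ∨ a * b = -1) := by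
    rintro a b (rfl | rfl) (rfl | rfl) <;> norm_num
  have hng : ∀ a : ℝ, (a = 1 ∨ a = -1) → (-a = 1 ∨ -a = -1) := by
    rintro a (rfl | rfl) <;> norm_num
  by_cases hXg : Good (circleMap z s (θ + u)).re
  · by_cases hYg : Good (circleMap z s (θ + u)).im
    · exact ⟨u, by simpa using hδ0.le, hXg, hYg⟩
    · obtain ⟨e', he', hdir⟩ := good_dir hXg
      have he : (-(β * e') = 1 ∨ -(β * e') = -1) := hng _ (hsg _ _ hβ he')
      obtain ⟨q, hq1, hq2, hq3⟩ := hX _ he
      obtain ⟨r, hr1, hr2, hr3⟩ := hY _ he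
      refine ⟨_, hmove _ he, ?_, ?_⟩
      · rw [hq3]
        have : -(-(β * e') * β) = e' := by
          have hβ2 : β * β = 1 := by rcases hβ with rfl | rfl <;> norm_num
          linear_combination e' * hβ2
        rw [this]
        exact hdir q hq1 hq2
      · rw [hr3]
        exact bad_move hQ.2 hYg (hsg _ _ he hα) hr1 hr2
  · by_cases hYg : Good (circleMap z s (θ + u)).im
    · obtain ⟨e', he', hdir⟩ := good_dir hYg
      have he : (α * e' = 1 ∨ α * e' = -1) := hsg _ _ hα he'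
      obtain ⟨q, hq1, hq2, hq3⟩ := hX _ he
      obtain ⟨r, hr1, hr2, hr3⟩ := hY _ he
      refine ⟨_, hmove _ he, ?_, ?_⟩
      · rw [hq3]
        exact bad_move hQ.1 hXg (hng _ (hsg _ _ he hβ)) hq1 hq2
      · rw [hr3]
        have : α * e' * α = e' := by
          have hα2 : α * α = 1 := by rcases hα with rfl | rfl <;> norm_num
          linear_combination e' * hα2
        rw [this]
        exact hdir r hr1 hr2
    · obtain ⟨q, hq1, hq2, hq3⟩ := hX 1 (Or.inl rfl)
      obtain ⟨r, hr1, hr2, hr3⟩ := hY 1 (Or.inl rfl)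
      refine ⟨_, hmove 1 (Or.inl rfl), ?_, ?_⟩
      · rw [hq3]
        exact bad_move hQ.1 hXg (hng _ (hsg _ _ (Or.inl rfl) hβ)) hq1 hq2
      · rw [hr3]
        exact bad_move hQ.2 hYg (hsg _ _ (Or.inl rfl) hα) hr1 hr2

/-- rescaling a circle -/
lemma circle_rescale (d : Dg) (z : ℂ) (s t : ℝ) :
    Fm [d] (circleMap ((z - ((1 - lam : ℝ) : ℂ) * dv d) / lam) (s / lam) t) = circleMap z s t := by
  have hl : (lam : ℂ) ≠ 0 := by exact_mod_cast lam_pos.ne'
  rw [Fm_cons, Fm_nil]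
  simp only [circleMap]
  push_cast
  field_simp
  ring

lemma Fm_injective (w : List Dg) : Function.Injective (Fm w) := by
  intro z z' h
  have h1 := Fm_dist w z z'
  rw [h, dist_self] at h1
  have h2 := lamn_pos w
  have h3 : dist z z' = 0 := by
    rcases mul_eq_zero.1 h1.symm with h | h
    · exact absurd h h2.ne'
    · exact h
  exact dist_eq_zero.1 h3

lemma hit_iter {θ α β : ℝ} (hα : α = 1 ∨ α = -1) (hβ : β = 1 ∨ β = -1)
    (hc : Real.cos θ = α / √2) (hs : Real.sin θ = β / √2) (k : ℕ) : ∀ {z : ℂ} {s u : ℝ}, 0 < s →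
    |u| + 5 / (101 * s) ≤ 1/4 → circleMap z s (θ + u) ∈ Q0 →
    ∃ u' : ℝ, |u' - u| ≤ 5 / (101 * s) ∧ ∃ w : List Dg, w.length = k ∧ ∃ y ∈ Q0,
      circleMap z s (θ + u') = Fm w y := by
  induction k with
  | zero =>
    intro z s u hs0 _ hQ
    exact ⟨u, by simp; positivity, [], rfl, _, hQ, (Fm_nil _).symm⟩
  | succ k ih =>
    intro z s u hs0 hu hQ
    have h1 : 1 / (40 * s) + 5 / (101 * (s / lam)) = 5 / (101 * s) := by
      simp only [lam]
      field_simp
      norm_num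
    have h2 : 0 < 5 / (101 * (s / lam)) := by
      have := lam_pos
      positivity
    have h3 : 0 < 1 / (40 * s) := by positivity
    obtain ⟨u1, hu1, d, y, hy, e⟩ := hit_step hα hβ hc hs hs0 (by linarith) hQ
    have e2 : circleMap ((z - ((1 - lam : ℝ) : ℂ) * dv d) / lam) (s / lam) (θ + u1) = y := by
      apply Fm_injective [d]
      rw [circle_rescale, e]
    have hu1' : |u1| ≤ |u| + 1 / (40 * s) := by
      have : u1 = u + (u1 - u) := by ring
      calc |u1| = |u + (u1 - u)| := by rw [← this]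
        _ ≤ |u| + |u1 - u| := abs_add_le _ _
        _ ≤ _ := by linarith
    obtain ⟨u2, hu2, w, hw, y2, hy2, e3⟩ := ih (z := (z - ((1 - lam : ℝ) : ℂ) * dv d) / lam)
      (s := s / lam) (u := u1) (div_pos hs0 lam_pos) (by linarith) (e2 ▸ hy)
    refine ⟨u2, ?_, d :: w, by simp [hw], y2, hy2, ?_⟩
    · have : u2 - u = (u2 - u1) + (u1 - u) := by ring
      rw [this]
      calc |(u2 - u1) + (u1 - u)| ≤ |u2 - u1| + |u1 - u| := abs_add_le _ _
        _ ≤ _ := by linarith
    · rw [← circle_rescale d, e3, ← Fm_append]; rfl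

lemma hit_unit {θ α β : ℝ} (hα : α = 1 ∨ α = -1) (hβ : β = 1 ∨ β = -1)
    (hc : Real.cos θ = α / √2) (hs : Real.sin θ = β / √2) {z : ℂ} {s : ℝ} (hs0 : 0 < s)
    (hu : 5 / (101 * s) ≤ 1/4) (hQ : circleMap z s θ ∈ Q0) :
    ∃ u : ℝ, |u| ≤ 1/4 ∧ circleMap z s (θ + u) ∈ K := by
  have hcont : Continuous (fun u : ℝ => infDist (circleMap z s (θ + u)) K) :=
    (continuous_infDist_pt K).comp ((continuous_circleMap z s).comp (continuous_const.add continuous_id))
  obtain ⟨u, hu1, hmin⟩ := (isCompact_Icc (a := -(1/4:ℝ)) (b := 1/4)).exists_isMinOn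
    ⟨0, by constructor <;> norm_num⟩ hcont.continuousOn
  refine ⟨u, abs_le.2 hu1, ?_⟩
  have hle : ∀ k : ℕ, infDist (circleMap z s (θ + u)) K ≤ 3 * lam ^ k := by
    intro k
    obtain ⟨u', hu', w, hw, y, hy, e⟩ := hit_iter hα hβ hc hs k (z := z) (s := s) (u := 0) hs0
      (by simpa using hu) (by simpa using hQ)
    rw [sub_zero] at hu'
    have h1 := hmin (show u' ∈ Icc (-(1/4:ℝ)) (1/4) from abs_le.1 (hu'.trans hu))
    refine h1.trans ?_
    have h2 : infDist (circleMap z s (θ + u')) K ≤ dist (circleMap z s (θ + u')) (Fm w 0) :=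
      infDist_le_dist_of_mem (Fm_mem_K zero_mem_K)
    refine h2.trans ?_
    rw [e, Fm_dist, hw, dist_zero_right]
    have := norm_le_of_B0 (Q0_subset_B0 hy)
    have h3 := pow_pos lam_pos k
    nlinarith
  have h0 : infDist (circleMap z s (θ + u)) K ≤ 0 := by
    have ht : Tendsto (fun k : ℕ => 3 * lam ^ k) atTop (𝓝 (3 * 0)) :=
      (tendsto_pow_atTop_nhds_zero_of_lt_one lam_pos.le lam_lt_one).const_mul 3
    rw [mul_zero] at ht
    exact ge_of_tendsto' ht hle
  have h1 : infDist (circleMap z s (θ + u)) K = 0 := le_antisymm h0 infDist_nonneg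
  exact (isClosed_K.mem_iff_infDist_zero ⟨0, zero_mem_K⟩).2 h1

/-- the diagonal directions -/
lemma diag_dir (i : ℤ) : ∃ α β : ℝ, (α = 1 ∨ α = -1) ∧ (β = 1 ∨ β = -1) ∧
    Real.cos (π / 4 + i * (π / 2)) = α / √2 ∧ Real.sin (π / 4 + i * (π / 2)) = β / √2 := by
  set θ := π / 4 + i * (π / 2) with hθ
  have h0 : Real.cos (2 * θ) = 0 := by
    have : 2 * θ = π / 2 + i * π := by rw [hθ]; ring
    rw [this, Real.cos_add_int_mul_pi, Real.cos_pi_div_two, mul_zero]
  have h1 := Real.sin_sq_add_cos_sq θ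
  rw [Real.cos_two_mul] at h0
  have hc : Real.cos θ ^ 2 = 1 / 2 := by linarith
  have hs : Real.sin θ ^ 2 = 1 / 2 := by linarith
  have h2 : (√2) ^ 2 = 2 := Real.sq_sqrt (by norm_num)
  have h3 : (0:ℝ) < √2 := by positivity
  have key : ∀ x : ℝ, x ^ 2 = 1 / 2 → ∃ α : ℝ, (α = 1 ∨ α = -1) ∧ x = α / √2 := by
    intro x hx
    refine ⟨x * √2, ?_, by field_simp⟩
    have h4 : (x * √2) ^ 2 = 1 := by rw [mul_pow, hx, h2]; norm_num
    exact mul_self_eq_one_iff.1 (by rw [← sq]; exact h4)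
  obtain ⟨α, hα, e1⟩ := key _ hc
  obtain ⟨β, hβ, e2⟩ := key _ hs
  exact ⟨α, β, hα, hβ, e1, e2⟩

/-- the corner region -/
def Corner (z : ℂ) : Prop := z.re ∈ Icc (lam - lam ^ 5) lam ∧ z.im ∈ Icc (lam - lam ^ 5) lam

lemma step_mem {x α s : ℝ} (hα : α = 1 ∨ α = -1) (hx : x ∈ Icc (lam - lam ^ 5) lam)
    (hs1 : 1/10 ≤ s) (hs2 : s ≤ 3/5) : Good (x + s * (α / √2)) := by
  have h2 : (√2) ^ 2 = 2 := Real.sq_sqrt (by norm_num)
  have h3 : (0:ℝ) < √2 := by positivity
  have h4 : 1.41 ≤ √2 := Real.le_sqrt_of_sq_le (by norm_num)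
  have h5 : √2 ≤ 1.42 := by rw [Real.sqrt_le_left (by norm_num)]; norm_num
  have h6 : s / √2 ≤ 0.43 := by
    rw [div_le_iff₀ h3]; nlinarith
  have h7 : 0.07 ≤ s / √2 := by
    rw [le_div_iff₀ h3]; nlinarith
  obtain ⟨hx1, hx2⟩ := hx
  have hl5 : lam ^ 5 ≤ 0.03 := by norm_num [lam]
  unfold Good
  simp only [lam] at *
  rcases hα with rfl | rfl
  · right
    have : s * (1 / √2) = s / √2 := by ring
    rw [this]
    constructor <;> linarith
  · left
    have : s * (-1 / √2) = - (s / √2) := by ring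
    rw [this]
    constructor <;> linarith

/-- Circles of radius in `[1/10, 3/5]` around a point of the corner region hit `K` near each of the
four diagonal directions. -/
theorem blocked {z : ℂ} (hz : Corner z) {s : ℝ} (hs1 : 1/10 ≤ s) (hs2 : s ≤ 3/5) (i : ℤ) :
    ∃ t : ℝ, |t - (π / 4 + i * (π / 2))| ≤ 1/4 ∧ circleMap z s t ∈ K := by
  obtain ⟨α, β, hα, hβ, hc, hs⟩ := diag_dir i
  set θ := π / 4 + i * (π / 2) with hθ
  have hl := lam_pos
  have g1 := step_mem hα hz.1 hs1 hs2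
  have g2 := step_mem hβ hz.2 hs1 hs2
  rw [← hc, ← circle_re] at g1
  rw [← hs, ← circle_im] at g2
  obtain ⟨b, y, hy, e1⟩ := good_digit g1
  obtain ⟨b', y', hy', e2⟩ := good_digit g2
  have hs0 : 0 < s := by linarith
  have e3 : circleMap ((z - ((1 - lam : ℝ) : ℂ) * dv (b, b')) / lam) (s / lam) θ = ⟨y, y'⟩ := by
    apply Fm_injective [(b, b')]
    rw [circle_rescale]
    apply Complex.ext
    · rw [Fm_cons_re, Fm_nil, e1]
    · rw [Fm_cons_im, Fm_nil, e2]
  obtain ⟨u, hu, hK⟩ := hit_unit hα hβ hc hs (z := (z - ((1 - lam : ℝ) : ℂ) * dv (b, b')) / lam)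
    (s := s / lam) (div_pos hs0 hl) (by
      rw [div_le_iff₀ (by positivity)]
      have : 1/10 / lam ≤ s / lam := by gcongr
      have h2 : (1:ℝ)/10 / lam = 20/99 := by norm_num [lam]
      rw [h2] at this
      linarith) (by rw [e3]; exact ⟨hy, hy'⟩)
  refine ⟨θ + u, by simpa using hu, ?_⟩
  rw [← circle_rescale (b, b')]
  exact Fm_mem_K hK

end Pool.Agent.H783R2
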