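import Pool.Agent.H783R2.Arc.Hit

/-! # The Cantor set is not polar -/

set_option autoImplicit false
open Set Filter Topology Metric MeasureTheory Real

namespace Pool.Agent.H783R2

lemma circleAverage_log {κ c : ℂ} {r : ℝ} (hr : 0 < r) (h : κ ∉ closedBall c r) :
    circleAverage (fun z => Real.log ‖z - κ‖) c r = Real.log ‖c - κ‖ := by
  refine InnerProductSpace.HarmonicOnNhd.circleAverage_eq (f := fun z : ℂ => Real.log ‖z - κ‖) fun z hz => ?_
  rw [abs_of_pos hr] at hz
  refine AnalyticAt.harmonicAt_log_norm (f := fun z => z - κ) (by fun_prop) ?_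
  intro h0
  rw [sub_eq_zero] at h0
  exact h (h0 ▸ hz)

/-- the digits -/
def digits : List Dg := [(false, false), (false, true), (true, false), (true, true)]

/-- the nodes of generation `n` -/
noncomputable def nodes : ℕ → List ℂ
  | 0 => [0]
  | n + 1 => digits.flatMap fun d => (nodes n).map (Fm [d])

lemma nodes_mem_K : ∀ (n : ℕ) (κ : ℂ), κ ∈ nodes n → κ ∈ K
  | 0, κ, h => by
    simp only [nodes, List.mem_singleton] at h
    rw [h]; exact zero_mem_K
  | n + 1, κ, h => by
    simp only [nodes, List.mem_flatMap, List.mem_map] at h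
    obtain ⟨d, -, κ', h', rfl⟩ := h
    exact Fm_mem_K (nodes_mem_K n κ' h')

lemma nodes_length (n : ℕ) : (nodes n).length = 4 ^ n := by
  induction n with
  | zero => rfl
  | succ n ih =>
    simp only [nodes, digits, List.flatMap_cons, List.flatMap_nil, List.length_append,
      List.length_map, ih, List.length_nil]
    ring

/-- sum of the logarithmic kernels -/
noncomputable def logsum (l : List ℂ) (z : ℂ) : ℝ := (l.map fun κ => -Real.log ‖z - κ‖).sum

lemma logsum_le {l : List ℂ} {z : ℂ} {c : ℝ} (h : ∀ κ ∈ l, -Real.log ‖z - κ‖ ≤ c) :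
    logsum l z ≤ l.length * c := by
  induction l with
  | nil => simp [logsum]
  | cons κ l ih =>
    have h1 := h κ (by simp)
    have h2 := ih fun κ' hκ' => h κ' (by simp [hκ'])
    simp only [logsum, List.map_cons, List.sum_cons, List.length_cons] at *
    push_cast
    linarith

lemma le_logsum {l : List ℂ} {z : ℂ} {c : ℝ} (h : ∀ κ ∈ l, c ≤ -Real.log ‖z - κ‖) :
    l.length * c ≤ logsum l z := by
  induction l with
  | nil => simp [logsum]
  | cons κ l ih =>
    have h1 := h κ (by simp)
    have h2 := ih fun κ' hκ' => h κ' (by simp [hκ'])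
    simp only [logsum, List.map_cons, List.sum_cons, List.length_cons] at *
    push_cast
    linarith

lemma logsum_append (l l' : List ℂ) (z : ℂ) : logsum (l ++ l') z = logsum l z + logsum l' z := by
  simp [logsum]

lemma logsum_continuousAt {l : List ℂ} {z : ℂ} (h : z ∉ l) : ContinuousAt (logsum l) z := by
  induction l with
  | nil =>
    have : logsum [] = fun _ => 0 := by funext z; simp [logsum]
    rw [this]; exact continuousAt_const
  | cons κ l ih =>
    rw [List.mem_cons, not_or] at h
    have h2 := ih h.2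
    have e : logsum (κ :: l) = fun z => -Real.log ‖z - κ‖ + logsum l z := by
      funext z; simp [logsum]
    rw [e]
    have h3 : ContinuousAt (fun z : ℂ => -Real.log ‖z - κ‖) z := by
      refine (ContinuousAt.log (by fun_prop) ?_).neg
      exact norm_ne_zero_iff.2 (sub_ne_zero.2 h.1)
    exact h3.add h2

lemma logsum_average {l : List ℂ} {c : ℂ} {r : ℝ} (hr : 0 < r)
    (h : ∀ κ ∈ l, κ ∉ closedBall c r) : circleAverage (logsum l) c r = logsum l c := by
  induction l with
  | nil =>
    have : logsum [] = fun _ => 0 := by funext z; simp [logsum]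
    rw [this, circleAverage_const]
  | cons κ l ih =>
    have h1 := h κ (by simp)
    have h2 : ∀ κ' ∈ l, κ' ∉ closedBall c r := fun κ' hκ' => h κ' (by simp [hκ'])
    have e : logsum (κ :: l) = fun z => -Real.log ‖z - κ‖ + logsum l z := by
      funext z; simp [logsum]
    have hs1 : ContinuousOn (fun z : ℂ => Real.log ‖z - κ‖) (sphere c r) := by
      refine ContinuousOn.log (by fun_prop) fun z hz => ?_
      refine norm_ne_zero_iff.2 (sub_ne_zero.2 ?_)
      rintro rfl
      exact h1 (sphere_subset_closedBall hz)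
    have hi1 : CircleIntegrable (fun z : ℂ => Real.log ‖z - κ‖) c r := hs1.circleIntegrable hr.le
    have hs2 : ContinuousOn (logsum l) (sphere c r) := by
      intro z hz
      refine (logsum_continuousAt fun hzl => ?_).continuousWithinAt
      exact h2 z hzl (sphere_subset_closedBall hz)
    have hi2 : CircleIntegrable (logsum l) c r := hs2.circleIntegrable hr.le
    rw [e]
    have e2 : (fun z => -Real.log ‖z - κ‖ + logsum l z)
        = fun z => (-1 : ℝ) • Real.log ‖z - κ‖ + logsum l z := by
      funext z; simp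
    rw [e2, circleAverage_fun_add (f₁ := fun z => (-1 : ℝ) • Real.log ‖z - κ‖) hi1.const_smul hi2,
      circleAverage_fun_smul, circleAverage_log hr h1, ih h2]

lemma log_lam : -3 ≤ Real.log lam := by
  have := Real.one_sub_inv_le_log_of_pos lam_pos
  have h : (lam)⁻¹ ≤ 4 := by norm_num [lam]
  linarith

/-- the bound of the potentials -/
noncomputable def MM : ℝ := Real.log 200 + 1

lemma far_digit {z : ℂ} : ∃ d0 : Dg, ∀ d : Dg, d ≠ d0 → ∀ κ ∈ Q0, 1/200 ≤ ‖z - Fm [d] κ‖ := by
  refine ⟨(decide (1/2 ≤ z.re), decide (1/2 ≤ z.im)), ?_⟩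
  rintro ⟨b, b'⟩ hd κ ⟨⟨h1, h2⟩, ⟨h3, h4⟩⟩
  have hre : |(z - Fm [(b, b')] κ).re| ≤ ‖z - Fm [(b, b')] κ‖ := Complex.abs_re_le_norm _
  have him : |(z - Fm [(b, b')] κ).im| ≤ ‖z - Fm [(b, b')] κ‖ := Complex.abs_im_le_norm _
  rw [Complex.sub_re, Fm_cons_re, Fm_nil] at hre
  rw [Complex.sub_im, Fm_cons_im, Fm_nil] at him
  simp only [lam] at hre him
  have hcase : b ≠ decide (1/2 ≤ z.re) ∨ b' ≠ decide (1/2 ≤ z.im) := by
    by_contra hcon
    push Not at hcon
    exact hd (Prod.ext hcon.1 hcon.2)
  rcases hcase with h | h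
  · refine le_trans ?_ hre
    cases b
    · have h5 : 1/2 ≤ z.re := by
        by_contra hcon; exact h (decide_eq_false hcon).symm
      simp only [bv_false]
      exact le_trans (by linarith) (le_abs_self _)
    · have h5 : z.re < 1/2 := by
        by_contra hcon; exact h (decide_eq_true (not_lt.1 hcon)).symm
      simp only [bv_true]
      exact le_trans (by linarith) (neg_le_abs _)
  · refine le_trans ?_ him
    cases b'
    · have h5 : 1/2 ≤ z.im := by
        by_contra hcon; exact h (decide_eq_false hcon).symm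
      simp only [bv_false]
      exact le_trans (by linarith) (le_abs_self _)
    · have h5 : z.im < 1/2 := by
        by_contra hcon; exact h (decide_eq_true (not_lt.1 hcon)).symm
      simp only [bv_true]
      exact le_trans (by linarith) (neg_le_abs _)

lemma Fm_surj (w : List Dg) (z : ℂ) : ∃ y, Fm w y = z := by
  refine ⟨(z - cw w) / ((lam ^ w.length : ℝ) : ℂ), ?_⟩
  have : ((lam ^ w.length : ℝ) : ℂ) ≠ 0 := by exact_mod_cast (lamn_pos w).ne'
  simp only [Fm]
  field_simp
  ring

lemma Fm_norm (w : List Dg) (z z' : ℂ) : ‖Fm w z - Fm w z'‖ = lam ^ w.length * ‖z - z'‖ := by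
  rw [← dist_eq_norm, ← dist_eq_norm, Fm_dist]

lemma logsum_map (l : List ℂ) (d : Dg) (y : ℂ) (hy : ∀ κ ∈ l, y ≠ κ) :
    logsum (l.map (Fm [d])) (Fm [d] y) = logsum l y - l.length * Real.log lam := by
  induction l with
  | nil => simp [logsum]
  | cons κ l ih =>
    have h1 := ih fun κ' hκ' => hy κ' (by simp [hκ'])
    have h2 := hy κ (by simp)
    simp only [logsum, List.map_cons, List.sum_cons, List.length_cons] at *
    rw [h1, Fm_norm, Real.log_mul (lamn_pos _).ne' (norm_ne_zero_iff.2 (sub_ne_zero.2 h2))]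
    simp only [List.length_cons, List.length_nil, zero_add, pow_one]
    push_cast
    ring

lemma pot_bound (n : ℕ) : ∀ z : ℂ, (∀ κ ∈ nodes n, 1/200 * lam ^ n ≤ ‖z - κ‖) →
    logsum (nodes n) z ≤ 4 ^ n * MM := by
  induction n with
  | zero =>
    intro z hz
    have h1 := hz 0 (by simp [nodes])
    simp only [nodes, logsum, List.map_cons, List.map_nil, List.sum_cons, List.sum_nil, add_zero,
      pow_zero, one_mul]
    rw [pow_zero, mul_one] at h1
    have h2 : Real.log (1/200) ≤ Real.log ‖z - 0‖ := Real.log_le_log (by norm_num) h1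
    rw [Real.log_div (by norm_num) (by norm_num), Real.log_one] at h2
    simp only [MM]
    linarith
  | succ n ih =>
    intro z hz
    obtain ⟨d0, hd0⟩ := far_digit (z := z)
    have hl := nodes_length n
    have hpow : (0:ℝ) < 4 ^ n := by positivity
    -- bound for a far digit
    have hfar : ∀ d, d ≠ d0 → logsum ((nodes n).map (Fm [d])) z ≤ 4 ^ n * Real.log 200 := by
      intro d hd
      have := logsum_le (l := (nodes n).map (Fm [d])) (z := z) (c := Real.log 200) (by
        intro κ hκ
        obtain ⟨κ', hκ', rfl⟩ := List.mem_map.1 hκ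
        have h1 := hd0 d hd κ' (K_subset_Q0 (nodes_mem_K n κ' hκ'))
        have h2 : Real.log (1/200) ≤ Real.log ‖z - Fm [d] κ'‖ := Real.log_le_log (by norm_num) h1
        rw [Real.log_div (by norm_num) (by norm_num), Real.log_one] at h2
        linarith)
      rw [List.length_map, hl] at this
      push_cast at this
      exact this
    have hnear : logsum ((nodes n).map (Fm [d0])) z ≤ 4 ^ n * (MM + 3) := by
      obtain ⟨y, hy⟩ := Fm_surj [d0] z
      have h1 : ∀ κ ∈ nodes n, 1/200 * lam ^ n ≤ ‖y - κ‖ := by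
        intro κ hκ
        have hmem : Fm [d0] κ ∈ nodes (n + 1) := by
          simp only [nodes, List.mem_flatMap, List.mem_map]
          refine ⟨d0, ?_, κ, hκ, rfl⟩
          obtain ⟨b, b'⟩ := d0
          cases b <;> cases b' <;> simp [digits]
        have h2 := hz _ hmem
        rw [← hy, Fm_norm] at h2
        simp only [List.length_cons, List.length_nil, zero_add, pow_one] at h2
        have h3 : lam * (1/200 * lam ^ n) ≤ lam * ‖y - κ‖ := by
          rw [pow_succ] at h2; linarith
        exact le_of_mul_le_mul_left h3 lam_pos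
      have h2 : ∀ κ ∈ nodes n, y ≠ κ := by
        intro κ hκ h3
        have h4 := h1 κ hκ
        rw [h3, sub_self, norm_zero] at h4
        have h5 : 0 < 1/200 * lam ^ n := by
          have := lam_pos
          positivity
        linarith
      rw [← hy, logsum_map _ _ _ h2, hl]
      have h3 := ih y h1
      have h4 := log_lam
      push_cast
      nlinarith
    have hsum : logsum (nodes (n + 1)) z = logsum ((nodes n).map (Fm [(false, false)])) z
        + logsum ((nodes n).map (Fm [(false, true)])) z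
        + logsum ((nodes n).map (Fm [(true, false)])) z
        + logsum ((nodes n).map (Fm [(true, true)])) z := by
      simp only [nodes, digits, List.flatMap_cons, List.flatMap_nil, List.append_nil,
        logsum_append]
      ring
    rw [hsum]
    have hgoal : 4 ^ n * (MM + 3) + 3 * (4 ^ n * Real.log 200) ≤ 4 ^ (n + 1) * MM := by
      simp only [MM]
      rw [pow_succ]
      nlinarith
    have key : ∀ d, logsum ((nodes n).map (Fm [d])) z ≤ 4 ^ n * Real.log 200 ∨ d = d0 := by
      intro d
      by_cases h : d = d0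
      · exact Or.inr h
      · exact Or.inl (hfar d h)
    obtain ⟨b, b'⟩ := d0
    cases b <;> cases b'
    · have h1 := hfar (false, true) (by simp)
      have h2 := hfar (true, false) (by simp)
      have h3 := hfar (true, true) (by simp)
      linarith
    · have h1 := hfar (false, false) (by simp)
      have h2 := hfar (true, false) (by simp)
      have h3 := hfar (true, true) (by simp)
      linarith
    · have h1 := hfar (false, false) (by simp)
      have h2 := hfar (false, true) (by simp)
      have h3 := hfar (true, true) (by simp)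
      linarith
    · have h1 := hfar (false, false) (by simp)
      have h2 := hfar (false, true) (by simp)
      have h3 := hfar (true, false) (by simp)
      linarith

/-- The class of superharmonic functions with boundary values at least `1` on `K`. -/
structure VV (v : ℂ → ℝ) : Prop where
  sh : SH Om v
  bd : ∀ ζ ∈ K, ∀ ε : ℝ, 0 < ε → ∀ᶠ z in 𝓝[Om] ζ, 1 - ε ≤ v z

lemma VV.unif {v : ℂ → ℝ} (h : VV v) {ε : ℝ} (hε : 0 < ε) :
    ∃ δ > 0, ∀ z ∈ Om, infDist z K < δ → 1 - ε ≤ v z := by
  let U : Set ℂ := {z | ∃ r > 0, ∀ w ∈ ball z r, w ∈ Om → 1 - ε ≤ v w}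
  have hUo : IsOpen U := by
    rw [Metric.isOpen_iff]
    rintro z ⟨r, hr, h1⟩
    refine ⟨r, hr, fun y hy => ⟨r - dist y z, by rw [mem_ball] at hy; linarith, ?_⟩⟩
    intro w hw hwO
    refine h1 w (ball_subset_ball' ?_ hw) hwO
    linarith
  have hKU : K ⊆ U := by
    intro ζ hζ
    have h1 := h.bd ζ hζ ε hε
    rw [eventually_nhdsWithin_iff, Metric.eventually_nhds_iff_ball] at h1
    obtain ⟨r, hr, h2⟩ := h1
    exact ⟨r, hr, h2⟩
  obtain ⟨δ, hδ, hδU⟩ := isCompact_K.exists_thickening_subset_open hUo hKU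
  refine ⟨δ, hδ, fun z hz hzd => ?_⟩
  have h1 : z ∈ thickening δ K := by
    rw [mem_thickening_iff]
    obtain ⟨κ, hκ, h2⟩ := (infDist_lt_iff ⟨0, zero_mem_K⟩).1 hzd
    exact ⟨κ, hκ, h2⟩
  obtain ⟨r, hr, h2⟩ := hδU h1
  exact h2 z (mem_ball_self hr) hz

/-- the word of a small square well inside -/
def xw : List Dg := [(false, false), (true, true), (false, false), (false, false), (false, false)]

lemma cw_xw : cw xw = ((lam * (1 - lam) : ℝ) : ℂ) * (⟨1, 1⟩ : ℂ) := by
  apply Complex.ext
  · simp [xw, cw, dv]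
  · simp [xw, cw, dv]

lemma Fm_xw_B0 {y : ℂ} (hy : ‖y‖ ≤ 8) : Fm xw y ∈ B0 := by
  have h1 := (Complex.abs_re_le_norm y).trans hy
  have h2 := (Complex.abs_im_le_norm y).trans hy
  rw [abs_le] at h1 h2
  have e1 : (Fm xw y).re = lam ^ 5 * y.re + lam * (1 - lam) := by
    simp only [Fm, cw_xw, Complex.add_re, Complex.re_ofReal_mul, mul_one]
    rfl
  have e2 : (Fm xw y).im = lam ^ 5 * y.im + lam * (1 - lam) := by
    simp only [Fm, cw_xw, Complex.add_im, Complex.im_ofReal_mul, mul_one]
    rfl
  have h3 : lam ^ 5 ≤ 0.0298 := by norm_num [lam]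
  have h4 : 0 ≤ lam ^ 5 := by norm_num [lam]
  have h5 : lam * (1 - lam) ≤ 0.25 := by norm_num [lam]
  have h6 : 0.2499 ≤ lam * (1 - lam) := by norm_num [lam]
  refine ⟨?_, ?_⟩
  · rw [e1]; constructor <;> nlinarith
  · rw [e2]; constructor <;> nlinarith

lemma MM_pos : 0 < MM := by
  have : 0 < Real.log 200 := Real.log_pos (by norm_num)
  simp only [MM]; linarith

/-- The Cantor set is not polar: functions of the class `VV` are bounded below on some open set. -/
theorem nonpolar : ∃ T : Set ℂ, IsOpen T ∧ T.Nonempty ∧ T ⊆ Om ∧ ∃ c : ℝ, 0 < c ∧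
    ∀ v, VV v → ∀ z ∈ T, c ≤ v z := by
  set L := Real.log (13/2) with hL
  have hLpos : 0 < L := Real.log_pos (by norm_num)
  have hL2 : Real.log (3/2) < L := Real.log_lt_log (by norm_num) (by norm_num)
  have hML : 0 < MM + L := by linarith [MM_pos]
  refine ⟨{z | z ∈ Om ∧ dist z (Fm xw 0) < lam ^ 5 / 100}, ?_, ?_, fun z hz => hz.1,
    (L - Real.log (3/2)) / (MM + L) / 2, ?_, ?_⟩
  · exact isOpen_Om.inter isOpen_ball
  · refine ⟨Fm xw ⟨-1/200, 0⟩, ⟨Fm_xw_B0 ?_, fun h => ?_⟩, ?_⟩
    · refine (Complex.norm_le_abs_re_add_abs_im _).trans ?_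
      norm_num
    · have hB : (⟨-1/200, 0⟩ : ℂ) ∈ B0 := by
        refine ⟨⟨?_, ?_⟩, ⟨?_, ?_⟩⟩ <;> norm_num
      have h1 := mem_K_of_Fm hB h
      have h2 := (C1_subset h1.1).1
      norm_num at h2
    · rw [Fm_dist, dist_zero_right]
      have h1 : ‖(⟨-1/200, 0⟩ : ℂ)‖ ≤ 1/200 := by
        refine (Complex.norm_le_abs_re_add_abs_im _).trans ?_
        norm_num
      have h2 : 0 < lam ^ 5 := pow_pos lam_pos 5
      have h3 : xw.length = 5 := rfl
      rw [h3]
      nlinarith
  · apply div_pos (div_pos (by linarith) hML) (by norm_num)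
  intro v hv z hz
  obtain ⟨hzO, hzd⟩ := hz
  obtain ⟨y0, rfl⟩ := Fm_surj xw z
  have h5 : xw.length = 5 := rfl
  have hl5 : 0 < lam ^ 5 := pow_pos lam_pos 5
  rw [Fm_dist, dist_zero_right, h5] at hzd
  have hy0 : ‖y0‖ < 1/100 := by
    have : lam ^ 5 * ‖y0‖ < lam ^ 5 * (1/100) := by linarith
    exact lt_of_mul_lt_mul_left this hl5.le
  have hy0K : y0 ∉ K := fun h => hzO.2 (Fm_mem_K h)
  have hd0 : 0 < infDist y0 K := (isClosed_K.notMem_iff_infDist_pos ⟨0, zero_mem_K⟩).1 hy0K
  obtain ⟨δ, hδ, hδv⟩ := hv.unif (ε := 1/2) (by norm_num)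
  -- choose the generation
  obtain ⟨n, hn⟩ : ∃ n : ℕ, 1/200 * lam ^ n < min δ (infDist y0 K) := by
    have ht : Tendsto (fun k : ℕ => 1/200 * lam ^ k) atTop (𝓝 (1/200 * 0)) :=
      (tendsto_pow_atTop_nhds_zero_of_lt_one lam_pos.le lam_lt_one).const_mul _
    rw [mul_zero] at ht
    exact (ht.eventually (gt_mem_nhds (lt_min hδ hd0))).exists
  set ρ := 1/200 * lam ^ n with hρ
  have hρ0 : 0 < ρ := by
    have := lam_pos
    positivity
  -- the domain
  let G : Set ℂ := {y | ‖y‖ < 8 ∧ Fm xw y ∈ Om}
  have hGo : IsOpen G := (isOpen_lt continuous_norm continuous_const).inter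
    (isOpen_Om.preimage (Fm_continuous xw))
  let Z : Set ℂ := ⋃ κ ∈ {κ | κ ∈ nodes n}, closedBall κ ρ
  have hZc : IsClosed Z := (nodes n).finite_toSet.isClosed_biUnion fun κ _ => isClosed_closedBall
  let D : Set ℂ := G \ Z
  have hDo : IsOpen D := hGo.sdiff hZc
  have hDb : Bornology.IsBounded D := (isBounded_ball (x := (0:ℂ)) (r := 8)).subset (fun y hy => by
    rw [mem_ball_zero_iff]; exact hy.1.1)
  have hDnode : ∀ y ∈ D, ∀ κ ∈ nodes n, ρ < ‖y - κ‖ := by
    intro y hy κ hκ
    by_contra hcon
    apply hy.2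
    simp only [Z, mem_iUnion, exists_prop]
    refine ⟨κ, hκ, ?_⟩
    rw [mem_closedBall, dist_eq_norm]
    exact not_lt.1 hcon
  have hvD : SH D (fun y => v (((lam ^ 5 : ℝ) : ℂ) * y + cw xw)) :=
    hv.sh.comp hl5 (cw xw) (fun y hy => hy.1.2)
  let H : ℂ → ℝ := fun y => (1/2) * ((logsum (nodes n) y / 4 ^ n + L) / (MM + L))
  have hlen : ((nodes n).length : ℝ) = 4 ^ n := by rw [nodes_length]; push_cast; rfl
  have h4n : (0:ℝ) < 4 ^ n := by positivity
  have hHle : ∀ y ∈ D, H y ≤ 1/2 := by
    intro y hy
    have h1 := pot_bound n y (fun κ hκ => (hDnode y hy κ hκ).le)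
    have h2 : logsum (nodes n) y / 4 ^ n ≤ MM := by
      rw [div_le_iff₀ h4n]; linarith
    have h3 : (logsum (nodes n) y / 4 ^ n + L) / (MM + L) ≤ 1 := by
      rw [div_le_one hML]; linarith
    simp only [H]; linarith
  have hHc : ∀ y, y ∉ nodes n → ContinuousAt H y := by
    intro y hy
    have := logsum_continuousAt hy
    simp only [H]
    fun_prop
  have hDn : ∀ y ∈ D, y ∉ nodes n := by
    intro y hy hyn
    have := hDnode y hy y hyn
    rw [sub_self, norm_zero] at this
    linarith
  have key := min_principle hDo hDb hvD (h := H) (fun y hy => (hHc y (hDn y hy)).continuousWithinAt)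
    (by
      intro c r hr hcr
      have hav := logsum_average (l := nodes n) hr (c := c) (fun κ hκ hmem => by
        exact hDn κ (hcr hmem) hκ)
      have hci : CircleIntegrable (logsum (nodes n)) c r := by
        have : ContinuousOn (logsum (nodes n)) (sphere c r) := fun z hz =>
          (logsum_continuousAt (hDn z (hcr (sphere_subset_closedBall hz)))).continuousWithinAt
        exact this.circleIntegrable hr.le
      have e1 : H = fun y => (1/2 / (MM + L) / 4 ^ n) • logsum (nodes n) y + 1/2 * (L / (MM + L)) := by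
        funext y
        simp only [H, smul_eq_mul]
        ring
      have e2 : circleAverage H c r = H c := by
        rw [e1, circleAverage_fun_add (f₁ := fun y => (1/2 / (MM + L) / 4 ^ n) • logsum (nodes n) y)
          hci.const_smul (circleIntegrable_const _ _ _), circleAverage_const,
          circleAverage_fun_smul, hav]
      rw [e2])
    (by
      intro ζ hζ ε hε
      have hζD : ζ ∉ D := by
        rw [hDo.frontier_eq] at hζ
        exact hζ.2
      have hζcl : ζ ∈ closure D := frontier_subset_closure hζ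
      by_cases hcase : Fm xw ζ ∈ K ∨ ζ ∈ Z
      · have hdist : infDist (Fm xw ζ) K < δ := by
          rcases hcase with h | h
          · rw [infDist_zero_of_mem h]; exact hδ
          · simp only [Z, mem_iUnion, exists_prop] at h
            obtain ⟨κ, hκ, h1⟩ := h
            have h2 : infDist (Fm xw ζ) K ≤ dist (Fm xw ζ) (Fm xw κ) :=
              infDist_le_dist_of_mem (Fm_mem_K (nodes_mem_K n κ hκ))
            rw [Fm_dist, h5] at h2
            rw [mem_closedBall] at h1
            have h3 : lam ^ 5 ≤ 1 := by norm_num [lam]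
            have h4 : ρ < δ := lt_of_lt_of_le hn (min_le_left _ _)
            nlinarith [dist_nonneg (x := ζ) (y := κ)]
        have hcont : Continuous (fun y => infDist (Fm xw y) K) :=
          (continuous_infDist_pt K).comp (Fm_continuous xw)
        have hev : ∀ᶠ y in 𝓝[D] ζ, infDist (Fm xw y) K < δ :=
          (hcont.continuousAt.eventually (gt_mem_nhds hdist)).filter_mono nhdsWithin_le_nhds
        filter_upwards [hev, self_mem_nhdsWithin] with y hy hyD
        have h1 := hδv _ hyD.1.2 hy
        have h2 := hHle y hyD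
        have h3 : v (((lam ^ 5 : ℝ) : ℂ) * y + cw xw) = v (Fm xw y) := rfl
        rw [h3]
        linarith
      · push Not at hcase
        obtain ⟨hK, hZ⟩ := hcase
        have h8 : ‖ζ‖ ≤ 8 := by
          have : closure D ⊆ closedBall 0 8 := by
            refine closure_minimal (fun y hy => ?_) isClosed_closedBall
            rw [mem_closedBall_zero_iff]; exact hy.1.1.le
          have := this hζcl
          rwa [mem_closedBall_zero_iff] at this
        have h8' : ‖ζ‖ = 8 := by
          by_contra hne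
          exact hζD ⟨⟨lt_of_le_of_ne h8 hne, Fm_xw_B0 h8, hK⟩, hZ⟩
        have hζn : ζ ∉ nodes n := by
          intro h
          apply hZ
          simp only [Z, mem_iUnion, exists_prop]
          exact ⟨ζ, h, mem_closedBall_self hρ0.le⟩
        have hH0 : H ζ ≤ 0 := by
          have h1 : ∀ κ ∈ nodes n, -Real.log ‖ζ - κ‖ ≤ -L := by
            intro κ hκ
            have h2 := K_subset_Q0 (nodes_mem_K n κ hκ)
            have h3 : ‖κ‖ ≤ 3/2 := by
              obtain ⟨⟨a1, a2⟩, ⟨a3, a4⟩⟩ := h2
              rw [← sq_le_sq₀ (norm_nonneg _) (by norm_num), ← Complex.normSq_eq_norm_sq,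
                Complex.normSq_apply]
              nlinarith
            have h4 : 13/2 ≤ ‖ζ - κ‖ := by
              have := norm_sub_norm_le ζ κ
              linarith
            have := Real.log_le_log (by norm_num) h4
            linarith
          have h2 := logsum_le h1
          rw [hlen] at h2
          have h3 : logsum (nodes n) ζ / 4 ^ n ≤ -L := by
            rw [div_le_iff₀ h4n]; linarith
          have h6 : (logsum (nodes n) ζ / 4 ^ n + L) / (MM + L) ≤ 0 :=
            div_nonpos_of_nonpos_of_nonneg (by linarith) hML.le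
          simp only [H]; linarith
        have hev : ∀ᶠ y in 𝓝[D] ζ, H y < ε :=
          ((hHc ζ hζn).eventually (gt_mem_nhds (lt_of_le_of_lt hH0 hε))).filter_mono
            nhdsWithin_le_nhds
        filter_upwards [hev, self_mem_nhdsWithin] with y hy hyD
        have h1 := hv.sh.nonneg _ hyD.1.2
        have h3 : v (((lam ^ 5 : ℝ) : ℂ) * y + cw xw) = v (Fm xw y) := rfl
        rw [h3]
        linarith)
  have hy0D : y0 ∈ D := by
    refine ⟨⟨by linarith, hzO⟩, fun h => ?_⟩
    simp only [Z, mem_iUnion, exists_prop] at h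
    obtain ⟨κ, hκ, h1⟩ := h
    rw [mem_closedBall] at h1
    have h2 : infDist y0 K ≤ dist y0 κ := infDist_le_dist_of_mem (nodes_mem_K n κ hκ)
    have h3 : ρ < infDist y0 K := lt_of_lt_of_le hn (min_le_right _ _)
    linarith
  have hfin := key y0 hy0D
  have h3 : v (((lam ^ 5 : ℝ) : ℂ) * y0 + cw xw) = v (Fm xw y0) := rfl
  rw [h3] at hfin
  refine le_trans ?_ hfin
  have h1 : ∀ κ ∈ nodes n, -Real.log (3/2) ≤ -Real.log ‖y0 - κ‖ := by
    intro κ hκ
    have h2 := K_subset_Q0 (nodes_mem_K n κ hκ)
    have h4 : ‖κ‖ ≤ 149/100 := by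
      obtain ⟨⟨a1, a2⟩, ⟨a3, a4⟩⟩ := h2
      rw [← sq_le_sq₀ (norm_nonneg _) (by norm_num), ← Complex.normSq_eq_norm_sq,
        Complex.normSq_apply]
      nlinarith
    have h6 : ‖y0 - κ‖ ≤ 3/2 := by
      have := norm_sub_le y0 κ
      linarith
    have h7 : 0 < ‖y0 - κ‖ := lt_trans hρ0 (hDnode y0 hy0D κ hκ)
    have := Real.log_le_log h7 h6
    linarith
  have h2 := le_logsum h1
  rw [hlen] at h2
  have h4 : -Real.log (3/2) ≤ logsum (nodes n) y0 / 4 ^ n := by
    rw [le_div_iff₀ h4n]; linarith
  have h6 : (L - Real.log (3/2)) / (MM + L) ≤ (logsum (nodes n) y0 / 4 ^ n + L) / (MM + L) := by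
    gcongr
    linarith
  simp only [H]
  linarith

end Pool.Agent.H783R2
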