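import Mathlib

/-! # Bounded superharmonic functions on plane open sets: basic tools -/

set_option autoImplicit false
open Set Filter Topology Metric MeasureTheory Real

namespace Pool.Agent.H783R2

/-- `v` is a superharmonic function on `D` with values in `[0, 1]`. -/
structure SH (D : Set ℂ) (v : ℂ → ℝ) : Prop where
  nonneg : ∀ z ∈ D, 0 ≤ v z
  le_one : ∀ z ∈ D, v z ≤ 1
  lsc : LowerSemicontinuousOn v D
  mean : ∀ (c : ℂ) (r : ℝ), 0 < r → closedBall c r ⊆ D → circleAverage v c r ≤ v c

theorem lsc_circle {D : Set ℂ} {v : ℂ → ℝ} (h : LowerSemicontinuousOn v D) {c : ℂ} {r : ℝ}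
    (hr : 0 ≤ r) (hs : sphere c r ⊆ D) :
    LowerSemicontinuous (fun t : ℝ => v (circleMap c r t)) := by
  intro t y hy
  have h1 := h (circleMap c r t) (hs (circleMap_mem_sphere c hr t)) y hy
  have h2 : Tendsto (circleMap c r) (𝓝 t) (𝓝[D] (circleMap c r t)) :=
    tendsto_nhdsWithin_iff.2 ⟨(continuous_circleMap c r).continuousAt,
      Eventually.of_forall fun s => hs (circleMap_mem_sphere c hr s)⟩
  exact h2.eventually h1

theorem SH.circleIntegrable {D : Set ℂ} {v : ℂ → ℝ} (h : SH D v) {c : ℂ} {r : ℝ}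
    (hr : 0 ≤ r) (hs : sphere c r ⊆ D) : CircleIntegrable v c r := by
  have hm : Measurable (fun t : ℝ => v (circleMap c r t)) := (lsc_circle h.lsc hr hs).measurable
  refine (intervalIntegrable_iff_integrableOn_Ioc_of_le (by positivity)).2 ?_
  refine Measure.integrableOn_of_bounded (M := 1) measure_Ioc_lt_top.ne hm.aestronglyMeasurable ?_
  refine Eventually.of_forall fun t => ?_
  have h1 := hs (circleMap_mem_sphere c hr t)
  rw [Real.norm_eq_abs, abs_of_nonneg (h.nonneg _ h1)]
  exact h.le_one _ h1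

theorem SH.mono {D D' : Set ℂ} {v : ℂ → ℝ} (h : SH D v) (hD : D' ⊆ D) : SH D' v where
  nonneg := fun z hz => h.nonneg z (hD hz)
  le_one := fun z hz => h.le_one z (hD hz)
  lsc := h.lsc.mono hD
  mean := fun c r hr hc => h.mean c r hr (hc.trans hD)

/-- comparison of a superharmonic function with a continuous minorant on a circle -/
theorem SH.ge_average {D : Set ℂ} {v : ℂ → ℝ} (h : SH D v) {c : ℂ} {r : ℝ} (hr : 0 < r)
    (hc : closedBall c r ⊆ D) {f : ℂ → ℝ} (hf : ContinuousOn f (sphere c r))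
    (hfv : ∀ z ∈ sphere c r, f z ≤ v z) : circleAverage f c r ≤ v c := by
  refine le_trans ?_ (h.mean c r hr hc)
  refine circleAverage_mono ?_ (h.circleIntegrable hr.le (sphere_subset_closedBall.trans hc)) ?_
  · apply ContinuousOn.circleIntegrable hr.le hf
  · intro z hz
    rw [abs_of_pos hr] at hz
    exact hfv z hz

/-- affine change of variables -/
theorem SH.comp {D D' : Set ℂ} {v : ℂ → ℝ} (h : SH D v) {s : ℝ} (hs : 0 < s) (b : ℂ)
    (hD : ∀ z ∈ D', (s : ℂ) * z + b ∈ D) : SH D' (fun z => v ((s : ℂ) * z + b)) where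
  nonneg := fun z hz => h.nonneg _ (hD z hz)
  le_one := fun z hz => h.le_one _ (hD z hz)
  lsc := by
    intro z hz y hy
    have h1 := h.lsc _ (hD z hz) y hy
    have hc : Continuous (fun w : ℂ => (s : ℂ) * w + b) := by fun_prop
    have h2 : Tendsto (fun w : ℂ => (s : ℂ) * w + b) (𝓝[D'] z) (𝓝[D] ((s : ℂ) * z + b)) := by
      refine tendsto_nhdsWithin_iff.2 ⟨(hc.tendsto z).mono_left nhdsWithin_le_nhds, ?_⟩
      filter_upwards [self_mem_nhdsWithin] with w hw using hD w hw
    exact h2.eventually h1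
  mean := by
    intro c r hr hc
    have h1 : circleAverage (fun z => v ((s : ℂ) * z + b)) c r
        = circleAverage v ((s : ℂ) * c + b) (s * r) := by
      unfold circleAverage
      congr 1
      refine intervalIntegral.integral_congr fun t _ => ?_
      simp only [circleMap]
      congr 1
      push_cast
      ring
    rw [h1]
    refine h.mean _ _ (by positivity) ?_
    intro w hw
    have h2 : (w - b) / s ∈ closedBall c r := by
      rw [mem_closedBall, dist_eq_norm] at hw ⊢
      have h3 : (w - b) / s - c = (w - (s * c + b)) / s := by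
        field_simp [hs.ne']
        ring
      rw [h3, norm_div, Complex.norm_real, Real.norm_eq_abs, abs_of_pos hs,
        div_le_iff₀ hs]
      linarith
    have h4 := hD _ (hc h2)
    have h5 : (s : ℂ) * ((w - b) / s) + b = w := by
      have : (s : ℂ) ≠ 0 := by exact_mod_cast hs.ne'
      field_simp
      ring
    rwa [h5] at h4

/-- truncated affine change of values -/
theorem SH.affine {D : Set ℂ} {v : ℂ → ℝ} (h : SH D v) {q : ℝ} (hq1 : q < 1)
    (hq : ∀ z ∈ D, q ≤ v z) : SH D (fun z => (v z - q) / (1 - q)) where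
  nonneg := fun z hz => div_nonneg (by linarith [hq z hz]) (by linarith)
  le_one := fun z hz => by
    rw [div_le_one (by linarith)]; linarith [h.le_one z hz]
  lsc := by
    intro z hz y hy
    change y < (v z - q) / (1 - q) at hy
    have h0 : (0 : ℝ) < 1 - q := by linarith
    have h1 : y * (1 - q) + q < v z := by
      rw [lt_div_iff₀ h0] at hy; linarith
    filter_upwards [h.lsc z hz _ h1] with w hw
    change y < (v w - q) / (1 - q)
    change y * (1 - q) + q < v w at hw
    rw [lt_div_iff₀ h0]; linarith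
  mean := by
    intro c r hr hc
    have h0 : (0 : ℝ) < 1 - q := by linarith
    have hi := h.circleIntegrable hr.le (sphere_subset_closedBall.trans hc)
    have h1 : circleAverage (fun z => (v z - q) / (1 - q)) c r
        = (circleAverage v c r - q) / (1 - q) := by
      have e1 : (fun z => (v z - q) / (1 - q)) = fun z => (1 - q)⁻¹ • (v z - q) := by
        funext z; rw [smul_eq_mul, div_eq_inv_mul]
      rw [e1, circleAverage_fun_smul, circleAverage_fun_sub hi (circleIntegrable_const _ _ _),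
        circleAverage_const, smul_eq_mul, div_eq_inv_mul]
    rw [h1]
    have := h.mean c r hr hc
    gcongr

/-- division by a constant, truncated at `1` -/
theorem SH.scale {D : Set ℂ} {v : ℂ → ℝ} (h : SH D v) {a : ℝ} (ha : 0 < a) :
    SH D (fun z => min (v z / a) 1) where
  nonneg := fun z hz => le_min (div_nonneg (h.nonneg z hz) ha.le) zero_le_one
  le_one := fun z hz => min_le_right _ _
  lsc := by
    intro z hz y hy
    change y < min (v z / a) 1 at hy
    rw [lt_min_iff] at hy
    have h1 : y * a < v z := by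
      have := hy.1
      rw [lt_div_iff₀ ha] at this; linarith
    filter_upwards [h.lsc z hz _ h1] with w hw
    change y < min (v w / a) 1
    rw [lt_min_iff, lt_div_iff₀ ha]
    exact ⟨hw, hy.2⟩
  mean := by
    intro c r hr hc
    have hi := h.circleIntegrable hr.le (sphere_subset_closedBall.trans hc)
    have hl : LowerSemicontinuousOn (fun z => min (v z / a) 1) D := by
      intro z hz y hy
      change y < min (v z / a) 1 at hy
      rw [lt_min_iff] at hy
      have h1 : y * a < v z := by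
        have := hy.1
        rw [lt_div_iff₀ ha] at this; linarith
      filter_upwards [h.lsc z hz _ h1] with w hw
      change y < min (v w / a) 1
      rw [lt_min_iff, lt_div_iff₀ ha]
      exact ⟨hw, hy.2⟩
    have hsD := sphere_subset_closedBall.trans hc
    have hm : Measurable (fun t : ℝ => min (v (circleMap c r t) / a) 1) :=
      (lsc_circle hl hr.le hsD).measurable
    have hi2 : CircleIntegrable (fun z => min (v z / a) 1) c r := by
      refine (intervalIntegrable_iff_integrableOn_Ioc_of_le (by positivity)).2 ?_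
      refine Measure.integrableOn_of_bounded (M := 1) measure_Ioc_lt_top.ne hm.aestronglyMeasurable ?_
      refine Eventually.of_forall fun t => ?_
      have h1 := hsD (circleMap_mem_sphere c hr.le t)
      rw [Real.norm_eq_abs, abs_of_nonneg (le_min (div_nonneg (h.nonneg _ h1) ha.le) zero_le_one)]
      exact min_le_right _ _
    refine le_min ?_ ?_
    · have h1 : circleAverage (fun z => min (v z / a) 1) c r
          ≤ circleAverage (fun z => a⁻¹ • v z) c r := by
        refine circleAverage_mono hi2 (hi.const_smul) fun z _ => ?_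
        rw [smul_eq_mul, ← div_eq_inv_mul]
        exact min_le_left _ _
      refine h1.trans ?_
      rw [circleAverage_fun_smul, smul_eq_mul, div_eq_inv_mul]
      have := h.mean c r hr hc
      gcongr
    · refine circleAverage_mono_on_of_le_circle hi2 fun z _ => min_le_right _ _


/-- One step of the Harnack type estimate. -/
theorem harnack_step {D : Set ℂ} (hD : IsOpen D) {T : Set ℂ} {s z : ℂ} {p r : ℝ} (hp : 0 < p)
    (hr : 0 < r) (hsD : ball s r ⊆ D) (hz : closedBall z (dist z s) ⊆ D)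
    (h : ∀ v, SH D v → ∀ ℓ a : ℝ, ℓ ≤ a → (∀ z ∈ D, ℓ ≤ v z) → (∀ z ∈ T, a ≤ v z) →
      ∀ x ∈ ball s r, ℓ + p * (a - ℓ) ≤ v x) :
    ∃ p' > 0, ∃ r' > 0, ∀ v, SH D v → ∀ ℓ a : ℝ, ℓ ≤ a → (∀ z ∈ D, ℓ ≤ v z) →
      (∀ z ∈ T, a ≤ v z) → ∀ x ∈ ball z r', ℓ + p' * (a - ℓ) ≤ v x := by
  rcases eq_or_ne z s with rfl | hne
  · exact ⟨p, hp, r, hr, h⟩
  have hρ : 0 < dist z s := dist_pos.2 hne
  set ρ := dist z s with hρdef
  -- the test function
  let φ : ℂ → ℝ := fun y => max 0 (1 - dist y s / r)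
  have hφc : Continuous φ := by fun_prop
  have hφ0 : ∀ y, 0 ≤ φ y := fun y => le_max_left _ _
  have hφlip : ∀ x y, φ x ≤ φ y + dist x y / r := by
    intro x y
    have h1 : dist y s / r ≤ dist x y / r + dist x s / r := by
      rw [← add_div]
      gcongr
      calc dist y s ≤ dist y x + dist x s := dist_triangle _ _ _
        _ = _ := by rw [dist_comm y x]
    refine max_le ?_ ?_
    · have := hφ0 y
      positivity
    · have : 1 - dist y s / r ≤ φ y := le_max_right _ _
      linarith
  have hφv : ∀ v, SH D v → ∀ ℓ a : ℝ, ℓ ≤ a → (∀ z ∈ D, ℓ ≤ v z) → (∀ z ∈ T, a ≤ v z) →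
      ∀ x ∈ D, ℓ + p * (a - ℓ) * φ x ≤ v x := by
    intro v hv ℓ a hla h1 h2 x hx
    have hpa : 0 ≤ p * (a - ℓ) := mul_nonneg hp.le (by linarith)
    by_cases hxs : x ∈ ball s r
    · have h3 := h v hv ℓ a hla h1 h2 x hxs
      have h4 : φ x ≤ 1 := max_le zero_le_one (by
        have : 0 ≤ dist x s / r := by positivity
        linarith)
      nlinarith
    · have h4 : φ x = 0 := by
        refine max_eq_left ?_
        rw [mem_ball, not_lt] at hxs
        have : 1 ≤ dist x s / r := (one_le_div hr).2 hxs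
        linarith
      rw [h4, mul_zero, add_zero]
      exact h1 x hx
  -- positivity of the circle average
  have hpos : 0 < circleAverage φ z ρ := by
    rw [circleAverage_def, smul_eq_mul]
    refine mul_pos (by positivity) ?_
    obtain ⟨t, ht, hts⟩ : ∃ t ∈ Ioc (0:ℝ) (2 * π), circleMap z ρ t = s := by
      have h1 : s ∈ sphere z |ρ| := by rw [mem_sphere, dist_comm, abs_of_pos hρ]
      rw [← image_circleMap_Ioc] at h1
      exact h1
    refine intervalIntegral.integral_pos (by positivity)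
      ((hφc.comp (continuous_circleMap z ρ)).continuousOn) (fun x _ => hφ0 _)
      ⟨t, Ioc_subset_Icc_self ht, ?_⟩
    simp only [hts, φ, dist_self, zero_div, sub_zero]
    simp
  obtain ⟨δ, hδ, hδD⟩ := (isCompact_closedBall z ρ).exists_thickening_subset_open hD hz
  rw [thickening_closedBall hδ hρ.le] at hδD
  set c0 := circleAverage φ z ρ with hc0
  refine ⟨p * (c0 / 2), by positivity, min (δ / 2) (r * c0 / 2), by positivity, ?_⟩
  intro v hv ℓ a hla h1 h2 x hx
  have hx1 : dist x z < δ / 2 := lt_of_lt_of_le hx (min_le_left _ _)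
  have hx2 : dist x z < r * c0 / 2 := lt_of_lt_of_le hx (min_le_right _ _)
  have hball : closedBall x ρ ⊆ D := by
    intro y hy
    apply hδD
    rw [mem_closedBall] at hy
    rw [mem_ball]
    calc dist y z ≤ dist y x + dist x z := dist_triangle _ _ _
      _ < δ + ρ := by linarith
  have key := hv.ge_average hρ hball (f := fun y => ℓ + p * (a - ℓ) * φ y)
    (by fun_prop) (fun y hy => hφv v hv ℓ a hla h1 h2 y (hball (sphere_subset_closedBall hy)))
  have hφi : ∀ c, CircleIntegrable φ c ρ := fun c => hφc.continuousOn.circleIntegrable hρ.le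
  have e1 : circleAverage (fun y => ℓ + p * (a - ℓ) * φ y) x ρ
      = ℓ + p * (a - ℓ) * circleAverage φ x ρ := by
    have h5 : CircleIntegrable (fun y => (p * (a - ℓ)) • φ y) x ρ := (hφi x).const_smul
    have h6 : (fun y => ℓ + p * (a - ℓ) * φ y) = fun y => ℓ + (p * (a - ℓ)) • φ y := rfl
    rw [h6, circleAverage_fun_add (circleIntegrable_const _ _ _) h5, circleAverage_const,
      circleAverage_fun_smul, smul_eq_mul]
  rw [e1] at key
  have e2 : c0 - dist x z / r ≤ circleAverage φ x ρ := by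
    have h3 : circleAverage φ z ρ ≤ circleAverage (fun y => φ y + dist x z / r) x ρ := by
      unfold circleAverage
      have h4 : ∀ t, φ (circleMap z ρ t) ≤ φ (circleMap x ρ t) + dist x z / r := by
        intro t
        have h5 := hφlip (circleMap z ρ t) (circleMap x ρ t)
        have h6 : dist (circleMap z ρ t) (circleMap x ρ t) = dist x z := by
          simp only [circleMap, dist_add_right]
          exact dist_comm _ _
        rwa [h6] at h5
      rw [smul_eq_mul, smul_eq_mul]
      refine mul_le_mul_of_nonneg_left ?_ (by positivity)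
      refine intervalIntegral.integral_mono_on (by positivity) ?_ ?_ (fun t _ => h4 t)
      · exact (hφc.comp (continuous_circleMap z ρ)).intervalIntegrable _ _
      · exact ((hφc.comp (continuous_circleMap x ρ)).add continuous_const).intervalIntegrable _ _
    rw [circleAverage_fun_add (hφi x) (circleIntegrable_const _ _ _), circleAverage_const] at h3
    linarith
  have e3 : dist x z / r < c0 / 2 := by
    rw [div_lt_iff₀ hr]; linarith
  have e4 : c0 / 2 ≤ circleAverage φ x ρ := by linarith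
  have hpa : 0 ≤ p * (a - ℓ) := mul_nonneg hp.le (by linarith)
  have e5 : p * (a - ℓ) * (c0 / 2) ≤ p * (a - ℓ) * circleAverage φ x ρ :=
    mul_le_mul_of_nonneg_left e4 hpa
  linarith [key]


/-- A Harnack type estimate: a lower bound on a nonempty open subset `T` of a domain propagates to
compact subsets. -/
theorem harnack {D : Set ℂ} (hD : IsOpen D) (hc : IsPreconnected D) {T : Set ℂ} (hT : IsOpen T)
    (hTne : T.Nonempty) (hTD : T ⊆ D) {A : Set ℂ} (hA : IsCompact A) (hAD : A ⊆ D) :
    ∃ p : ℝ, 0 < p ∧ p ≤ 1 ∧ ∀ v, SH D v → ∀ ℓ a : ℝ, ℓ ≤ a → (∀ z ∈ D, ℓ ≤ v z) →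
      (∀ z ∈ T, a ≤ v z) → ∀ z ∈ A, ℓ + p * (a - ℓ) ≤ v z := by
  let S : Set ℂ := {z | ∃ p > 0, ∃ r > 0, ball z r ⊆ D ∧ ∀ v, SH D v → ∀ ℓ a : ℝ, ℓ ≤ a →
    (∀ z ∈ D, ℓ ≤ v z) → (∀ z ∈ T, a ≤ v z) → ∀ x ∈ ball z r, ℓ + p * (a - ℓ) ≤ v x}
  have hSo : IsOpen S := by
    rw [Metric.isOpen_iff]
    rintro z ⟨p, hp, r, hr, h1, h2⟩
    refine ⟨r, hr, fun y hy => ⟨p, hp, r - dist y z, by rw [mem_ball] at hy; linarith, ?_, ?_⟩⟩
    · refine subset_trans (ball_subset_ball' ?_) h1
      linarith
    · intro v hv ℓ a hla h3 h4 x hx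
      refine h2 v hv ℓ a hla h3 h4 x (ball_subset_ball' ?_ hx)
      linarith
  have hSne : (D ∩ S).Nonempty := by
    obtain ⟨t, ht⟩ := hTne
    obtain ⟨r, hr, hrT⟩ := Metric.isOpen_iff.1 hT t ht
    refine ⟨t, hTD ht, 1, one_pos, r, hr, hrT.trans hTD, ?_⟩
    intro v hv ℓ a hla h3 h4 x hx
    have := h4 x (hrT hx)
    linarith
  have hSD : D ⊆ S := by
    refine hc.subset_of_closure_inter_subset hSo hSne ?_
    rintro z ⟨hz, hzD⟩
    obtain ⟨R, hR, hRD⟩ := Metric.isOpen_iff.1 hD z hzD
    obtain ⟨s, hs, hzs⟩ := Metric.mem_closure_iff.1 hz (R / 2) (by positivity)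
    obtain ⟨p, hp, r, hr, h1, h2⟩ := hs
    obtain ⟨p', hp', r', hr', h3⟩ := harnack_step hD hp hr h1
      (fun y hy => hRD (by rw [mem_closedBall] at hy; rw [mem_ball]; linarith)) h2
    refine ⟨p', hp', min r' R, by positivity, (ball_subset_ball (min_le_right _ _)).trans hRD, ?_⟩
    intro v hv ℓ a hla h5 h6 x hx
    exact h3 v hv ℓ a hla h5 h6 x (ball_subset_ball (min_le_left _ _) hx)
  let P : Set ℂ → Prop := fun A => ∃ p : ℝ, 0 < p ∧ p ≤ 1 ∧ ∀ v, SH D v → ∀ ℓ a : ℝ, ℓ ≤ a →
    (∀ z ∈ D, ℓ ≤ v z) → (∀ z ∈ T, a ≤ v z) → ∀ z ∈ A, ℓ + p * (a - ℓ) ≤ v z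
  refine hA.induction_on (p := P) ?_ ?_ ?_ ?_
  · exact ⟨1, one_pos, le_rfl, fun v _ ℓ a _ _ _ z hz => absurd hz (by simp)⟩
  · rintro s t hst ⟨p, hp, hp1, h⟩
    exact ⟨p, hp, hp1, fun v hv ℓ a h1 h2 h3 z hz => h v hv ℓ a h1 h2 h3 z (hst hz)⟩
  · rintro s t ⟨p, hp, hp1, h⟩ ⟨q, hq, hq1, h'⟩
    refine ⟨min p q, lt_min hp hq, (min_le_left _ _).trans hp1, ?_⟩
    intro v hv ℓ a h1 h2 h3 z hz
    have h4 : 0 ≤ a - ℓ := by linarith
    rcases hz with hz | hz
    · have := h v hv ℓ a h1 h2 h3 z hz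
      have h5 : min p q * (a - ℓ) ≤ p * (a - ℓ) := mul_le_mul_of_nonneg_right (min_le_left _ _) h4
      linarith
    · have := h' v hv ℓ a h1 h2 h3 z hz
      have h5 : min p q * (a - ℓ) ≤ q * (a - ℓ) := mul_le_mul_of_nonneg_right (min_le_right _ _) h4
      linarith
  · intro x hx
    obtain ⟨p, hp, r, hr, h1, h2⟩ := hSD (hAD hx)
    refine ⟨ball x r, mem_nhdsWithin_of_mem_nhds (ball_mem_nhds x hr), min p 1,
      lt_min hp one_pos, min_le_right _ _, ?_⟩
    intro v hv ℓ a h3 h4 h5 z hz
    have h6 : 0 ≤ a - ℓ := by linarith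
    have := h2 v hv ℓ a h3 h4 h5 z hz
    have h7 : min p 1 * (a - ℓ) ≤ p * (a - ℓ) := mul_le_mul_of_nonneg_right (min_le_left _ _) h6
    linarith

/-- the circle average of the square of the modulus -/
theorem circleAverage_normSq (a : ℂ) {r : ℝ} (hr : 0 < r) :
    circleAverage (fun z => ‖z‖ ^ 2) a r = ‖a‖ ^ 2 + r ^ 2 := by
  have h1 : circleAverage (fun z : ℂ => (starRingEnd ℂ) a * z) a r = (starRingEnd ℂ) a * a := by
    have hd : DiffContOnCl ℂ (fun z : ℂ => (starRingEnd ℂ) a * z) (ball a |r|) :=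
      (by fun_prop : Differentiable ℂ fun z : ℂ => (starRingEnd ℂ) a * z).diffContOnCl
    exact hd.circleAverage
  have hci : CircleIntegrable (fun z : ℂ => (starRingEnd ℂ) a * z) a r :=
    (by fun_prop : Continuous fun z : ℂ => (starRingEnd ℂ) a * z).continuousOn.circleIntegrable hr.le
  have h2 : circleAverage (fun z : ℂ => ((starRingEnd ℂ) a * z).re) a r
      = ((starRingEnd ℂ) a * a).re := by
    have := Complex.reCLM.circleAverage_comp_comm hci
    rw [h1] at this
    exact this
  have h3 : circleAverage (fun z : ℂ => ‖z‖ ^ 2) a r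
      = circleAverage (fun z : ℂ => (2 : ℝ) • ((starRingEnd ℂ) a * z).re + (r ^ 2 - ‖a‖ ^ 2)) a r := by
    refine circleAverage_congr_sphere fun z hz => ?_
    rw [mem_sphere, dist_eq_norm, abs_of_pos hr] at hz
    have e1 : ‖z - a‖ ^ 2 = ‖z‖ ^ 2 - 2 * ((starRingEnd ℂ) a * z).re + ‖a‖ ^ 2 := by
      rw [← Complex.normSq_eq_norm_sq, ← Complex.normSq_eq_norm_sq, ← Complex.normSq_eq_norm_sq,
        Complex.normSq_sub]
      have : (z * (starRingEnd ℂ) a).re = ((starRingEnd ℂ) a * z).re := by rw [mul_comm]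
      rw [this]; ring
    rw [hz] at e1
    simp only [smul_eq_mul]
    linarith
  rw [h3, circleAverage_fun_add _ (circleIntegrable_const _ _ _), circleAverage_fun_smul, h2,
    circleAverage_const, smul_eq_mul]
  · have : ((starRingEnd ℂ) a * a).re = ‖a‖ ^ 2 := by
      rw [mul_comm, Complex.mul_conj, Complex.ofReal_re, Complex.normSq_eq_norm_sq]
    rw [this]; ring
  · have : Continuous fun z : ℂ => (2 : ℝ) • ((starRingEnd ℂ) a * z).re := by fun_prop
    exact this.continuousOn.circleIntegrable hr.le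

/-- The minimum principle. -/
theorem min_principle {D : Set ℂ} (hD : IsOpen D) (hb : Bornology.IsBounded D) {v h : ℂ → ℝ}
    (hv : SH D v) (hh : ContinuousOn h D)
    (hhm : ∀ (c : ℂ) (r : ℝ), 0 < r → closedBall c r ⊆ D → h c ≤ circleAverage h c r)
    (hbd : ∀ ζ ∈ frontier D, ∀ ε : ℝ, 0 < ε → ∀ᶠ z in 𝓝[D] ζ, h z ≤ v z + ε) :
    ∀ z ∈ D, h z ≤ v z := by
  intro z0 hz0
  by_contra hcon
  push Not at hcon
  obtain ⟨R, hR, hDR⟩ := hb.subset_ball_lt 0 0
  set M := h z0 - v z0 with hM
  have hM0 : 0 < M := by linarith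
  set ε := M / (2 * R ^ 2) with hε
  have hε0 : 0 < ε := by positivity
  have hεR : ε * R ^ 2 = M / 2 := by rw [hε]; field_simp
  have hnR : ∀ z ∈ D, ‖z‖ ^ 2 ≤ R ^ 2 := by
    intro z hz
    have h1 := hDR hz
    rw [mem_ball_zero_iff] at h1
    have := norm_nonneg z
    nlinarith
  let f : ℂ → ℝ := fun z => h z - v z + ε * ‖z‖ ^ 2
  have hfusc : UpperSemicontinuousOn f D := by
    have h1 : LowerSemicontinuousOn (fun z => v z + (- (h z) - ε * ‖z‖ ^ 2)) D := by
      refine hv.lsc.add (ContinuousOn.lowerSemicontinuousOn ?_)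
      fun_prop
    intro z hz y hy
    have h2 : -y < v z + (- (h z) - ε * ‖z‖ ^ 2) := by
      change h z - v z + ε * ‖z‖ ^ 2 < y at hy
      linarith
    filter_upwards [h1 z hz (-y) h2] with w hw
    change h w - v w + ε * ‖w‖ ^ 2 < y
    change -y < v w + (- (h w) - ε * ‖w‖ ^ 2) at hw
    linarith
  let X : Set ℂ := {z | z ∈ D ∧ M ≤ f z}
  have hXD : X ⊆ D := fun z hz => hz.1
  have hXcl : IsClosed X := by
    refine isClosed_of_closure_subset fun ζ hζ => ?_
    have hfreq : ∃ᶠ z in 𝓝 ζ, z ∈ X := mem_closure_iff_frequently.1 hζ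
    by_cases hζD : ζ ∈ D
    · refine ⟨hζD, ?_⟩
      by_contra hlt
      push Not at hlt
      have h1 := hfusc ζ hζD M hlt
      rw [eventually_nhdsWithin_iff] at h1
      obtain ⟨z, hzX, hz2⟩ := (hfreq.and_eventually h1).exists
      have h3 := hz2 hzX.1
      have h4 := hzX.2
      change f z < M at h3
      linarith
    · have hfr : ζ ∈ frontier D := by
        rw [hD.frontier_eq]
        exact ⟨closure_mono hXD hζ, hζD⟩
      have h1 := hbd ζ hfr (M / 4) (by positivity)
      rw [eventually_nhdsWithin_iff] at h1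
      obtain ⟨z, hzX, hz2⟩ := (hfreq.and_eventually h1).exists
      have h3 := hz2 hzX.1
      have h4 : M ≤ h z - v z + ε * ‖z‖ ^ 2 := hzX.2
      have h5 : ε * ‖z‖ ^ 2 ≤ ε * R ^ 2 := mul_le_mul_of_nonneg_left (hnR z hzX.1) hε0.le
      linarith
  have hXc : IsCompact X := Metric.isCompact_of_isClosed_isBounded hXcl (hb.subset hXD)
  have hXne : X.Nonempty := ⟨z0, hz0, by
    change M ≤ h z0 - v z0 + ε * ‖z0‖ ^ 2
    have : 0 ≤ ε * ‖z0‖ ^ 2 := by positivity
    linarith⟩
  obtain ⟨a, haX, hamax⟩ := (hfusc.mono hXD).exists_isMaxOn hXne hXc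
  have hmax : ∀ z ∈ D, f z ≤ f a := by
    intro z hz
    by_cases hzX : M ≤ f z
    · exact hamax (show z ∈ X from ⟨hz, hzX⟩)
    · exact (not_le.1 hzX).le.trans haX.2
  obtain ⟨r, hr, hrD⟩ := Metric.isOpen_iff.1 hD a haX.1
  have hr2 : 0 < r / 2 := by positivity
  have hcb : closedBall a (r / 2) ⊆ D := (closedBall_subset_ball (by linarith)).trans hrD
  have hsp : sphere a (r / 2) ⊆ D := sphere_subset_closedBall.trans hcb
  have hci : CircleIntegrable h a (r / 2) := (hh.mono hsp).circleIntegrable hr2.le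
  have hn2 : Continuous fun z : ℂ => ‖z‖ ^ 2 := by fun_prop
  have key := hv.ge_average hr2 hcb (f := fun z => h z + (ε • ‖z‖ ^ 2 - f a))
    (by
      refine (hh.mono hsp).add ?_
      fun_prop)
    (fun z hz => by
      have := hmax z (hsp hz)
      change h z - v z + ε * ‖z‖ ^ 2 ≤ f a at this
      change h z + (ε * ‖z‖ ^ 2 - f a) ≤ v z
      linarith)
  rw [circleAverage_fun_add hci, circleAverage_fun_sub, circleAverage_fun_smul,
    circleAverage_normSq a hr2, circleAverage_const, smul_eq_mul] at key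
  · have h1 := hhm a (r / 2) hr2 hcb
    have h2 : f a = h a - v a + ε * ‖a‖ ^ 2 := rfl
    have h3 : 0 < ε * (r / 2) ^ 2 := by positivity
    rw [h2] at key
    nlinarith
  · exact (by fun_prop : Continuous fun z : ℂ => ε • ‖z‖ ^ 2).continuousOn.circleIntegrable hr2.le
  · exact circleIntegrable_const _ _ _
  · exact (by fun_prop : Continuous fun z : ℂ => ε • ‖z‖ ^ 2 - f a).continuousOn.circleIntegrable
      hr2.le

end Pool.Agent.H783R2
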